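import Pool.Agent.H49.BT.Defs

/-!
# [H49 BT B2S] The Fourier series of the second Bernoulli function, truncated

PROOF. Both sides depend only on `fract u` (`cos(2π k u)` is `1`-periodic: `u = fract u + ⌊u⌋`, `Real.cos_add_int_mul_two_pi`), so let
`u ∈ [0,1)`. Mathlib `hasSum_one_div_nat_pow_mul_cos` with `k = 1`:
`∑_{n} 1/n^2 cos(2π n u) = (-1)^2 (2π)^2/2/2! * B_2(u)`, `B_2(u) = u^2 - u + 1/6` (`Polynomial.bernoulli`, evaluate
`Polynomial.bernoulli 2`; see `Mathlib/NumberTheory/ZetaValues.lean` and `Polynomial.bernoulli_two` or unfold with `simp`), i.e.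
`B2 u = ∑_{n ≥ 1} cos(2π n u)/(π^2 n^2)`. The tail over `n > K` is at most `(1/π^2) ∑_{n > K} 1/n^2 ≤ 1/(π^2 K) ≤ 1/K`
(`1/n^2 ≤ 1/(n-1) - 1/n`; finite sums `≤ 1/K` for every end, then the limit; or `sum_Ioc_inv_sq_le_sub`).
-/

set_option autoImplicit false

namespace Pool.Agent.H49.BT

open Finset

private theorem b2s_hasSum (v : ℝ) (h0 : 0 ≤ v) (h1 : v < 1) :
    HasSum (fun n : ℕ => Real.cos (2 * Real.pi * n * v) / (Real.pi ^ 2 * (n : ℝ) ^ 2)) (v ^ 2 - v + 1 / 6) := by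
  have h := hasSum_one_div_nat_pow_mul_cos (k := 1) one_ne_zero (x := v) ⟨h0, h1.le⟩
  have h2 := h.mul_left (1 / Real.pi ^ 2)
  have e1 : (1 / Real.pi ^ 2) * ((-1 : ℝ) ^ (1 + 1) * (2 * Real.pi) ^ (2 * 1) / 2 / ((2 * 1).factorial : ℝ) *
      (Polynomial.map (algebraMap ℚ ℝ) (Polynomial.bernoulli (2 * 1))).eval v) = v ^ 2 - v + 1 / 6 := by
    have h3 := bernoulliFun_two v
    unfold bernoulliFun at h3
    simp only [mul_one]
    have hpi := Real.pi_ne_zero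
    rw [h3]
    simp only [Nat.factorial]
    push_cast
    field_simp
  rw [e1] at h2
  refine h2.congr_fun fun n => ?_
  rw [mul_one]
  ring

private theorem b2s_fract (u : ℝ) (k : ℕ) :
    Real.cos (2 * Real.pi * k * u) = Real.cos (2 * Real.pi * k * Int.fract u) := by
  have h1 : u = Int.fract u + (⌊u⌋ : ℝ) := (Int.fract_add_floor u).symm
  have h2 : 2 * Real.pi * k * u = 2 * Real.pi * k * Int.fract u + ((k * ⌊u⌋ : ℤ) : ℝ) * (2 * Real.pi) := by
    push_cast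
    nth_rewrite 1 [h1]
    ring
  rw [h2, Real.cos_add_int_mul_two_pi]

theorem b2s (u : ℝ) (K : ℕ) (hK : 1 ≤ K) :
    |B2 u - ∑ k ∈ Icc 1 K, Real.cos (2 * Real.pi * k * u) / (Real.pi ^ 2 * (k : ℝ) ^ 2)| ≤
      1 / K := by
  have hs : ∑ k ∈ Icc 1 K, Real.cos (2 * Real.pi * k * u) / (Real.pi ^ 2 * (k : ℝ) ^ 2) =
      ∑ k ∈ Icc 1 K, Real.cos (2 * Real.pi * k * Int.fract u) / (Real.pi ^ 2 * (k : ℝ) ^ 2) :=
    sum_congr rfl fun k _ => by rw [b2s_fract]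
  rw [hs]
  unfold B2
  have h0 := Int.fract_nonneg u
  have h1 := Int.fract_lt_one u
  revert h0 h1
  generalize Int.fract u = v
  intro h0 h1
  obtain ⟨f, hf⟩ : ∃ f : ℕ → ℝ, f = fun n : ℕ => Real.cos (2 * Real.pi * n * v) / (Real.pi ^ 2 * (n : ℝ) ^ 2) := ⟨_, rfl⟩
  have hsum := b2s_hasSum v h0 h1
  rw [← hf] at hsum
  have hf' : ∑ k ∈ Icc 1 K, Real.cos (2 * Real.pi * k * v) / (Real.pi ^ 2 * (k : ℝ) ^ 2) = ∑ k ∈ Icc 1 K, f k := by
    rw [hf]
  rw [hf']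
  have hf0 : f 0 = 0 := by
    rw [hf]
    simp
  have hIcc : ∑ k ∈ Icc 1 K, f k = ∑ k ∈ range (K + 1), f k := by
    rw [Finset.range_eq_Ico, Finset.sum_eq_sum_Ico_succ_bot (by omega : 0 < K + 1), hf0, zero_add]
    rfl
  rw [hIcc]
  have ht := (hsum.tendsto_sum_nat.comp (Filter.tendsto_add_atTop_nat 1)).sub_const (∑ k ∈ range (K + 1), f k)
  refine le_of_tendsto ht.abs ?_
  filter_upwards [Filter.eventually_ge_atTop K] with N hN
  have h2 : (∑ k ∈ range (N + 1), f k) - ∑ k ∈ range (K + 1), f k = ∑ k ∈ Ioc K N, f k := by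
    rw [← Finset.sum_range_add_sum_Ico f (by omega : K + 1 ≤ N + 1), add_sub_cancel_left]
    refine sum_congr ?_ fun _ _ => rfl
    ext k
    rw [mem_Ico, mem_Ioc]
    omega
  show |(∑ k ∈ range (N + 1), f k) - ∑ k ∈ range (K + 1), f k| ≤ 1 / K
  rw [h2]
  calc |∑ k ∈ Ioc K N, f k| ≤ ∑ k ∈ Ioc K N, |f k| := Finset.abs_sum_le_sum_abs _ _
    _ ≤ ∑ k ∈ Ioc K N, ((k : ℝ) ^ 2)⁻¹ := by
        refine sum_le_sum fun k hk => ?_
        have hk1 : 1 ≤ k := by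
          have := (mem_Ioc.1 hk).1
          omega
        have hk2 : (0 : ℝ) < k := by exact_mod_cast hk1
        have hpi : (1 : ℝ) ≤ Real.pi ^ 2 := by
          have := Real.pi_gt_three
          nlinarith
        rw [hf]
        simp only
        rw [abs_div, abs_of_pos (by positivity : (0 : ℝ) < Real.pi ^ 2 * (k : ℝ) ^ 2), div_le_iff₀ (by positivity)]
        have h3 : ((k : ℝ) ^ 2)⁻¹ * (Real.pi ^ 2 * (k : ℝ) ^ 2) = Real.pi ^ 2 := by
          field_simp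
        rw [h3]
        exact (Real.abs_cos_le_one _).trans hpi
    _ ≤ (K : ℝ)⁻¹ - (N : ℝ)⁻¹ := sum_Ioc_inv_sq_le_sub (by omega) hN
    _ ≤ 1 / K := by
        rw [one_div]
        have : (0 : ℝ) ≤ (N : ℝ)⁻¹ := by positivity
        linarith

end Pool.Agent.H49.BT
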