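import Pool.Agent.H49.BT.Defs
import Pool.Agent.H24.AB.LSK

/-!
# [H49 BT CAU] Cauchy-Schwarz over `a`

PROOF. `U = ∑_a (al a a) (∑_b be b b ee(w/(ab)))`. Cauchy-Schwarz: `‖U‖^2 ≤ (∑_a |al a a|^2) ∑_a ‖∑_b be b b ee(w/(ab))‖^2`, and
`∑_{a ≤ S} a^2 ≤ S^3`. Expand the second square (`z * conj z`): it is the real number
`∑_{b,c} be b be c b c ∑_a ee(w/(ab)) conj(ee(w/(ac)))`, `ee(u) conj(ee(v)) = ee(u-v)` and
`w/(ab) - w/(ac) = (w (1/b - 1/c))/a`, so its absolute value is `≤ ∑_{b,c} b c ‖V S (w(1/b-1/c))‖ ≤ S^2 ∑_{b,c} ‖V ..‖`.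
-/

set_option autoImplicit false

namespace Pool.Agent.H49.BT

open Finset

theorem cau_inner (be : ℕ → ℝ) (hb : ∀ n, |be n| ≤ 1) (S : ℕ) (w : ℝ) :
    ∑ a ∈ Icc 1 S, ‖∑ b ∈ Icc 1 S, ((be b * (b : ℝ) : ℝ) : ℂ) *
        H24.AB.ee (w / ((a : ℝ) * b))‖ ^ 2 ≤
      (S : ℝ) ^ 2 * ∑ b ∈ Icc 1 S, ∑ c ∈ Icc 1 S,
        ‖V S (w * (1 / (b : ℝ) - 1 / (c : ℝ)))‖ := by
  have key : ((∑ a ∈ Icc 1 S, ‖∑ b ∈ Icc 1 S, ((be b * (b : ℝ) : ℝ) : ℂ) *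
        H24.AB.ee (w / ((a : ℝ) * b))‖ ^ 2 : ℝ) : ℂ) =
      ∑ b ∈ Icc 1 S, ∑ c ∈ Icc 1 S, ((be b * (b : ℝ) * (be c * (c : ℝ)) : ℝ) : ℂ) *
        V S (w * (1 / (b : ℝ) - 1 / (c : ℝ))) := by
    have h1 : ∀ a ∈ Icc 1 S, ((‖∑ b ∈ Icc 1 S, ((be b * (b : ℝ) : ℝ) : ℂ) *
        H24.AB.ee (w / ((a : ℝ) * b))‖ ^ 2 : ℝ) : ℂ) =
        ∑ b ∈ Icc 1 S, ∑ c ∈ Icc 1 S, ((be b * (b : ℝ) * (be c * (c : ℝ)) : ℝ) : ℂ) *
          H24.AB.ee ((w * (1 / (b : ℝ) - 1 / (c : ℝ))) / (a : ℝ)) := by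
      intro a ha
      rw [Complex.ofReal_pow, ← Complex.mul_conj', map_sum, Finset.sum_mul_sum]
      refine Finset.sum_congr rfl fun b hb' => Finset.sum_congr rfl fun c hc' => ?_
      rw [map_mul, Complex.conj_ofReal, H24.AB.ee_conj]
      have ha1 : (a : ℝ) ≠ 0 := by
        have := (Finset.mem_Icc.1 ha).1
        positivity
      have hb1 : (b : ℝ) ≠ 0 := by
        have := (Finset.mem_Icc.1 hb').1
        positivity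
      have hc1 : (c : ℝ) ≠ 0 := by
        have := (Finset.mem_Icc.1 hc').1
        positivity
      have e1 : (w * (1 / (b : ℝ) - 1 / (c : ℝ))) / (a : ℝ) =
          w / ((a : ℝ) * b) + (-(w / ((a : ℝ) * c))) := by
        field_simp
        ring
      rw [e1, H24.AB.ee_add]
      push_cast
      ring
    rw [Complex.ofReal_sum, Finset.sum_congr rfl h1, Finset.sum_comm]
    refine Finset.sum_congr rfl fun b _ => ?_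
    rw [Finset.sum_comm]
    refine Finset.sum_congr rfl fun c _ => ?_
    unfold V
    rw [Finset.mul_sum]
  have h0 : 0 ≤ ∑ a ∈ Icc 1 S, ‖∑ b ∈ Icc 1 S, ((be b * (b : ℝ) : ℝ) : ℂ) *
        H24.AB.ee (w / ((a : ℝ) * b))‖ ^ 2 := Finset.sum_nonneg fun _ _ => by positivity
  have h2 : ∑ a ∈ Icc 1 S, ‖∑ b ∈ Icc 1 S, ((be b * (b : ℝ) : ℝ) : ℂ) *
        H24.AB.ee (w / ((a : ℝ) * b))‖ ^ 2 =
      ‖((∑ a ∈ Icc 1 S, ‖∑ b ∈ Icc 1 S, ((be b * (b : ℝ) : ℝ) : ℂ) *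
        H24.AB.ee (w / ((a : ℝ) * b))‖ ^ 2 : ℝ) : ℂ)‖ := by
    rw [Complex.norm_real, Real.norm_of_nonneg h0]
  rw [h2, key]
  refine (norm_sum_le _ _).trans ?_
  rw [Finset.mul_sum]
  refine Finset.sum_le_sum fun b hb' => ?_
  refine (norm_sum_le _ _).trans ?_
  rw [Finset.mul_sum]
  refine Finset.sum_le_sum fun c hc' => ?_
  rw [norm_mul]
  refine mul_le_mul_of_nonneg_right ?_ (norm_nonneg _)
  rw [Complex.norm_real, Real.norm_eq_abs, abs_mul, abs_mul, abs_mul]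
  have hb2 : (b : ℝ) ≤ S := by exact_mod_cast (Finset.mem_Icc.1 hb').2
  have hc2 : (c : ℝ) ≤ S := by exact_mod_cast (Finset.mem_Icc.1 hc').2
  have hb3 : |(b : ℝ)| = b := abs_of_nonneg (Nat.cast_nonneg _)
  have hc3 : |(c : ℝ)| = c := abs_of_nonneg (Nat.cast_nonneg _)
  rw [hb3, hc3, sq]
  have hS : (0 : ℝ) ≤ S := Nat.cast_nonneg _
  have hb4 : |be b| * (b : ℝ) ≤ S := by
    calc |be b| * (b : ℝ) ≤ 1 * (b : ℝ) := mul_le_mul_of_nonneg_right (hb b) (Nat.cast_nonneg _)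
      _ ≤ S := by rw [one_mul]; exact hb2
  have hc4 : |be c| * (c : ℝ) ≤ S := by
    calc |be c| * (c : ℝ) ≤ 1 * (c : ℝ) := mul_le_mul_of_nonneg_right (hb c) (Nat.cast_nonneg _)
      _ ≤ S := by rw [one_mul]; exact hc2
  exact mul_le_mul hb4 hc4 (by positivity) hS

theorem cau (al be : ℕ → ℝ) (ha : ∀ n, |al n| ≤ 1) (hb : ∀ n, |be n| ≤ 1) (S : ℕ) (w : ℝ) :
    ‖U al be S w‖ ^ 2 ≤ (S : ℝ) ^ 5 *
      ∑ b ∈ Icc 1 S, ∑ c ∈ Icc 1 S, ‖V S (w * (1 / (b : ℝ) - 1 / (c : ℝ)))‖ := by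
  set I : ℕ → ℂ := fun a => ∑ b ∈ Icc 1 S, ((be b * (b : ℝ) : ℝ) : ℂ) *
        H24.AB.ee (w / ((a : ℝ) * b)) with hI
  have hU : U al be S w = ∑ a ∈ Icc 1 S, ((al a * (a : ℝ) : ℝ) : ℂ) * I a := by
    unfold U
    refine Finset.sum_congr rfl fun a _ => ?_
    rw [hI, Finset.mul_sum]
    refine Finset.sum_congr rfl fun b _ => ?_
    push_cast
    ring
  have h1 : ‖U al be S w‖ ≤ ∑ a ∈ Icc 1 S, (a : ℝ) * ‖I a‖ := by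
    rw [hU]
    refine (norm_sum_le _ _).trans (Finset.sum_le_sum fun a _ => ?_)
    rw [norm_mul, Complex.norm_real, Real.norm_eq_abs, abs_mul,
      abs_of_nonneg (Nat.cast_nonneg a : (0 : ℝ) ≤ (a : ℝ))]
    refine mul_le_mul_of_nonneg_right ?_ (norm_nonneg _)
    calc |al a| * (a : ℝ) ≤ 1 * (a : ℝ) := mul_le_mul_of_nonneg_right (ha a) (Nat.cast_nonneg _)
      _ = a := one_mul _
  have h2 : (∑ a ∈ Icc 1 S, (a : ℝ) * ‖I a‖) ^ 2 ≤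
      (∑ a ∈ Icc 1 S, (a : ℝ) ^ 2) * ∑ a ∈ Icc 1 S, ‖I a‖ ^ 2 :=
    Finset.sum_mul_sq_le_sq_mul_sq _ _ _
  have h3 : ∑ a ∈ Icc 1 S, (a : ℝ) ^ 2 ≤ (S : ℝ) ^ 3 := by
    have : ∑ a ∈ Icc 1 S, (a : ℝ) ^ 2 ≤ ∑ _a ∈ Icc 1 S, (S : ℝ) ^ 2 := by
      refine Finset.sum_le_sum fun a ha' => ?_
      have : (a : ℝ) ≤ S := by exact_mod_cast (Finset.mem_Icc.1 ha').2
      gcongr
    refine this.trans ?_
    rw [Finset.sum_const, Nat.card_Icc, nsmul_eq_mul]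
    have : ((S + 1 - 1 : ℕ) : ℝ) = S := by simp
    rw [this]
    exact le_of_eq (by ring)
  have h4 := cau_inner be hb S w
  have h0 : 0 ≤ ∑ a ∈ Icc 1 S, ‖I a‖ ^ 2 := Finset.sum_nonneg fun _ _ => by positivity
  calc ‖U al be S w‖ ^ 2 ≤ (∑ a ∈ Icc 1 S, (a : ℝ) * ‖I a‖) ^ 2 :=
        pow_le_pow_left₀ (norm_nonneg _) h1 2
    _ ≤ (∑ a ∈ Icc 1 S, (a : ℝ) ^ 2) * ∑ a ∈ Icc 1 S, ‖I a‖ ^ 2 := h2
    _ ≤ (S : ℝ) ^ 3 * ∑ a ∈ Icc 1 S, ‖I a‖ ^ 2 := mul_le_mul_of_nonneg_right h3 h0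
    _ ≤ (S : ℝ) ^ 3 * ((S : ℝ) ^ 2 * ∑ b ∈ Icc 1 S, ∑ c ∈ Icc 1 S,
        ‖V S (w * (1 / (b : ℝ) - 1 / (c : ℝ)))‖) :=
        mul_le_mul_of_nonneg_left h4 (by positivity)
    _ = _ := by ring

end Pool.Agent.H49.BT
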