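import Pool.Agent.H24.AB.Wt
import Pool.Agent.H24.AB.Quad
import Pool.Agent.H24.AB.SLog

/-!
# [H49 BT] MP_31d0eb_nt: the Brun-Titchmarsh theorem for short intervals, improved for every length

There are `c > 0`, `x₀` with `π(x,H) ≤ (2 - c (log H/log x)^2) H/log H` for all `x ≥ x₀` and
`exp((log x)^(9/10)) ≤ H ≤ x^(1/2)`.

* `Rmp`, `Maj`: exact sum of a trapezoid over the multiples of `D` (second Bernoulli function `B2`).
* `Svi`: Selberg's sieve with the trapezoid. `B2s`, `Tr`: Fourier series of `B2`, truncation.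
* `Reg`, `Gee`: the form `T` in terms of the gcd `g` and a Möbius variable `e`: bilinear forms `U`.
* `Cau`, `Prs`, `Exb`: Cauchy-Schwarz, pairs, dyadic blocks.
* `Exs`: Vinogradov's bound for `∑ e(Y/a)` (helper1). `Tbd`: bound of `T`.
* `NumO`, `NumA`, `NumB`, `NumC`, `Fin`: parameters and the final inequality.
-/

set_option autoImplicit false

namespace Pool.Agent.H49.BT

open Finset

/-- second periodic Bernoulli function -/
noncomputable def B2 (u : ℝ) : ℝ := Int.fract u ^ 2 - Int.fract u + 1 / 6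

/-- ramp -/
noncomputable def rp (u : ℝ) : ℝ := max u 0

/-- trapezoid, `1` on `[x, x+H]`, slopes of length `Δ` -/
noncomputable def F (x H Δ u : ℝ) : ℝ :=
  (rp (u - (x - Δ)) - rp (u - x) - rp (u - (x + H)) + rp (u - (x + H + Δ))) / Δ

/-- the remainder for one end point -/
noncomputable def W (l : ℕ → ℝ) (R : ℕ) (y : ℝ) : ℝ :=
  ∑ d ∈ Icc 1 R, ∑ e ∈ Icc 1 R, l d * l e * (d.lcm e : ℝ) * B2 (y / (d.lcm e : ℝ))

/-- the exponential form -/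
noncomputable def T (l : ℕ → ℝ) (R : ℕ) (z : ℝ) : ℂ :=
  ∑ d ∈ Icc 1 R, ∑ e ∈ Icc 1 R,
    ((l d * l e * (d.lcm e : ℝ) : ℝ) : ℂ) * H24.AB.ee (z / (d.lcm e : ℝ))

/-- the bilinear form -/
noncomputable def U (al be : ℕ → ℝ) (S : ℕ) (w : ℝ) : ℂ :=
  ∑ a ∈ Icc 1 S, ∑ b ∈ Icc 1 S,
    ((al a * be b * ((a : ℝ) * b) : ℝ) : ℂ) * H24.AB.ee (w / ((a : ℝ) * b))

/-- the exponential sum -/
noncomputable def V (S : ℕ) (Y : ℝ) : ℂ := ∑ a ∈ Icc 1 S, H24.AB.ee (Y / (a : ℝ))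

/-- Vinogradov's bound with constants `c`, `C` -/
def ExpB (c C : ℝ) : Prop := ∀ (A A' : ℕ) (Y κ : ℝ), 1 ≤ A → A' ≤ 2 * A → 2 ≤ κ →
    (A : ℝ) ^ 2 ≤ Y → Y ≤ (A : ℝ) ^ κ →
    ‖∑ a ∈ Ioc A A', H24.AB.ee (Y / (a : ℝ))‖ ≤
      Real.exp (C * κ ^ 3) * (1 + Real.log A) * (A : ℝ) ^ (1 - c / κ ^ 2)

/-- the range of `H` -/
def Rng (x H : ℝ) : Prop := Real.exp ((Real.log x) ^ (9 / 10 : ℝ)) ≤ H ∧ H ≤ x ^ (1 / 2 : ℝ)

/-- the exponent `D = c4 θ^2` -/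
noncomputable def Dd (c4 x H : ℝ) : ℝ := c4 * (Real.log H / Real.log x) ^ 2

/-- the sieve level is `R^2` -/
noncomputable def Rr (c4 x H : ℝ) : ℕ := ⌊H ^ ((1 + Dd c4 x H) / 2)⌋₊

/-- the cut for `g`, `e` and for the Fourier series -/
noncomputable def Gg (c4 x H : ℝ) : ℕ := ⌈H ^ (6 * Dd c4 x H)⌉₊

/-- the near diagonal -/
noncomputable def et (c4 x H : ℝ) : ℝ := H ^ (-(12 * Dd c4 x H))

/-- number of dyadic blocks -/
noncomputable def Jj (c4 x H : ℝ) : ℕ := ⌈20 * Dd c4 x H * Real.log H⌉₊ + 1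

/-- `κ` -/
noncomputable def kp (x H : ℝ) : ℝ := 5 * Real.log x / Real.log H

end Pool.Agent.H49.BT
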