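import Pool.Agent.H49.BT.Prs

/-!
# [H49 BT EXB] From dyadic blocks to `[1,S]`

PROOF. Induction on `J` for all `S' ≤ S` with `S' ≤ 2^J Q`: `‖V S' Y‖ ≤ Q + J E`. If `S' ≤ Q` (in particular `J = 0`): `V_triv`.
Step, `Q < S' ≤ 2^(J+1) Q`: `A = max Q ((S'+1)/2)`, so `Q ≤ A ≤ S'`, `S' ≤ 2A`, `A ≤ 2^J Q`; `V S' = V A + ∑_{Ioc A S'}`.
-/

set_option autoImplicit false

namespace Pool.Agent.H49.BT

open Finset

theorem exb (S Q J : ℕ) (hQ : 1 ≤ Q) (hJ : S ≤ 2 ^ J * Q) (Y E : ℝ) (hE : 0 ≤ E)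
    (hb : ∀ A A' : ℕ, Q ≤ A → A ≤ A' → A' ≤ 2 * A → A' ≤ S →
      ‖∑ a ∈ Ioc A A', H24.AB.ee (Y / (a : ℝ))‖ ≤ E) :
    ‖V S Y‖ ≤ Q + J * E := by
  have hI : ∀ n : ℕ, Icc 1 n = Ioc 0 n := by
    intro n
    ext k
    rw [mem_Icc, mem_Ioc]
    omega
  have key : ∀ J S' : ℕ, S' ≤ S → S' ≤ 2 ^ J * Q → ‖V S' Y‖ ≤ Q + J * E := by
    intro J
    induction J with
    | zero =>
      intro S' _ h2
      have h3 : (S' : ℝ) ≤ Q := by
        have : S' ≤ Q := by simpa using h2
        exact_mod_cast this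
      have h4 := V_triv S' Y
      simp only [Nat.cast_zero, zero_mul, add_zero]
      linarith
    | succ J ih =>
      intro S' h1 h2
      have hJE : (0 : ℝ) ≤ J * E := by positivity
      rcases le_or_gt S' Q with h | h
      · have h3 : (S' : ℝ) ≤ Q := by exact_mod_cast h
        have h4 := V_triv S' Y
        push_cast
        linarith
      · obtain ⟨A, hA⟩ : ∃ A : ℕ, A = max Q ((S' + 1) / 2) := ⟨_, rfl⟩
        have hQA : Q ≤ A := by rw [hA]; exact le_max_left _ _
        have hSA : (S' + 1) / 2 ≤ A := by rw [hA]; exact le_max_right _ _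
        have hAS : A ≤ S' := by
          rw [hA]
          exact max_le h.le (by omega)
        have hAJ : A ≤ 2 ^ J * Q := by
          rw [hA]
          refine max_le ?_ ?_
          · exact Nat.le_mul_of_pos_left Q (by positivity)
          · rw [pow_succ] at h2
            have h3 : S' ≤ 2 * (2 ^ J * Q) := by
              calc S' ≤ 2 ^ J * 2 * Q := h2
                _ = 2 * (2 ^ J * Q) := by ring
            omega
        have h5 : V S' Y = V A Y + ∑ a ∈ Ioc A S', H24.AB.ee (Y / (a : ℝ)) := by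
          unfold V
          rw [hI, hI, Finset.sum_Ioc_consecutive _ (Nat.zero_le _) hAS]
        rw [h5]
        have h6 := ih A (hAS.trans h1) hAJ
        have h7 := hb A S' hQA hAS (by omega) h1
        refine (norm_add_le _ _).trans ?_
        push_cast
        linarith
  exact key J S le_rfl hJ

end Pool.Agent.H49.BT
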