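import Pool.Agent.H49.BT.Defs
import Pool.Agent.H1.BT.Fin

/-!
# [H49 BT EXS] Vinogradov's bound for `∑ e(Y/a)` (author: helper1, Pool/Agent/H1/BT)
-/

set_option autoImplicit false

namespace Pool.Agent.H49.BT

open Finset

theorem expsum : ∃ c C : ℝ, 0 < c ∧ 0 < C ∧ ExpB c C := by
  obtain ⟨c, C, hc, hC, h⟩ := Pool.Agent.H1.BT.expsum
  exact ⟨c, C, hc, hC, fun A A' Y κ h1 h2 h3 h4 h5 => h A A' Y κ h1 h2 (by linarith) h4 h5⟩

end Pool.Agent.H49.BT
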