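import Pool.Agent.H49.BT.NumA

/-!
# [H49 BT NUMB] The size of the bound in `tbd`

PROOF. `base = R et/(2Gg^2) ≥ H^(2/5)` (`numA`, `c4 ≤ 1/1000`), so with `θ = h/L`, `kp = 5/θ`:
`base^(-(c/kp^2)) ≤ H^(-(2/5)(c θ^2/25)) = H^(-(2c/(125 c4)) D) ≤ H^(-16 D)` (`c4 ≤ c/1000`, `D = c4 θ^2`). `Jj ≤ 20 D h + 2 ≤ L + 2`,
`1 + log R ≤ 1 + log x` (`R ≤ x`). So `Jj (exp(C kp^3)(1 + log R) base^(..)) ≤ (L+2)(1+L) exp(C kp^3) H^(-16D) ≤ H^(-15D)` by `big` with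
`k = 2`, `M = 6` (`(L+2)(L+1) ≤ 6 L^2`). `5 et + H^(-15D) ≤ 6 H^(-12D) ≤ 9 H^(-12D)`, the root is `≤ 3 H^(-6D)`
(`Real.sqrt_le_left`, `Real.sqrt_le_iff`); `4/Gg ≤ 4 H^(-6D)`.
-/

set_option autoImplicit false

namespace Pool.Agent.H49.BT

open Filter

theorem numB (c C c4 : ℝ) (hc : 0 < c) (hC : 0 < C) (hc4 : 0 < c4) (hc4' : c4 ≤ 1 / 1000)
    (hc4c : c4 ≤ c / 1000) : ∀ᶠ x : ℝ in atTop, ∀ H : ℝ, Rng x H →
    4 * Real.sqrt (5 * et c4 x H + Jj c4 x H * (Real.exp (C * (kp x H) ^ 3) *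
      (1 + Real.log (Rr c4 x H)) *
      (Rr c4 x H * et c4 x H / (2 * (Gg c4 x H : ℝ) ^ 2)) ^ (-(c / (kp x H) ^ 2)))) +
      4 / Gg c4 x H ≤ 16 * H ^ (-(6 * Dd c4 x H)) := by
  filter_upwards [bas 1, big c4 C 6 2 hc4 hC.le, numA c4 hc4 hc4'] with x hb hbig hA
  intro H hH
  obtain ⟨_, hL1, _, hhL, hH1, _⟩ := hb H hH
  have hbg := hbig H hH
  obtain ⟨hR2, hRx, _, hG1, hG6, _, _, _, _, _, hbase, _, _, _⟩ := hA H hH
  clear hb hbig hA
  have hH0 : 0 < H := by linarith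
  have hh0 : 0 < Real.log H := Real.log_pos hH1
  have hL0 : 0 < Real.log x := by linarith
  have hkp0 : 0 < kp x H := by
    unfold kp
    positivity
  set L := Real.log x with hLdef
  set h := Real.log H with hhdef
  have hD : Dd c4 x H = c4 * (h / L) ^ 2 := rfl
  have hth0 : 0 < h / L := by positivity
  have hth : h / L ≤ 1 / 2 := by
    rw [div_le_iff₀ hL0]
    linarith
  have hth2 : (h / L) ^ 2 ≤ 1 / 4 := by
    calc (h / L) ^ 2 ≤ (1 / 2) ^ 2 := by gcongr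
      _ = 1 / 4 := by norm_num
  have hD0 : 0 < Dd c4 x H := by rw [hD]; positivity
  have hD1 : Dd c4 x H ≤ 1 / 4000 := by
    rw [hD]
    calc c4 * (h / L) ^ 2 ≤ 1 / 1000 * (1 / 4) := by gcongr
      _ = 1 / 4000 := by norm_num
  set D := Dd c4 x H with hDdef
  set E := Real.exp (C * (kp x H) ^ 3) with hE
  have hE0 : 0 < E := Real.exp_pos _
  -- the base
  set b := (Rr c4 x H * et c4 x H / (2 * (Gg c4 x H : ℝ) ^ 2)) with hbdef
  have hcth : 16 * D ≤ 2 / 5 * (c / (kp x H) ^ 2) := by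
    have e1 : c / (kp x H) ^ 2 = c * (h / L) ^ 2 / 25 := by
      unfold kp
      rw [← hLdef, ← hhdef]
      field_simp
      norm_num
    rw [e1, hD]
    have : c4 * (h / L) ^ 2 ≤ c / 1000 * (h / L) ^ 2 := by gcongr
    linarith
  have hbexp : b ^ (-(c / (kp x H) ^ 2)) ≤ H ^ (-(16 * D)) := by
    have hq : 0 ≤ c / (kp x H) ^ 2 := by positivity
    calc b ^ (-(c / (kp x H) ^ 2)) ≤ (H ^ (2 / 5 : ℝ)) ^ (-(c / (kp x H) ^ 2)) :=
          Real.rpow_le_rpow_of_nonpos (Real.rpow_pos_of_pos hH0 _) hbase (by linarith)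
      _ = H ^ (2 / 5 * (-(c / (kp x H) ^ 2))) := (Real.rpow_mul hH0.le _ _).symm
      _ ≤ H ^ (-(16 * D)) := Real.rpow_le_rpow_of_exponent_le hH1.le (by linarith)
  have hJ : (Jj c4 x H : ℝ) ≤ L + 2 := by
    unfold Jj
    push_cast
    have h1 : (⌈20 * D * h⌉₊ : ℝ) < 20 * D * h + 1 :=
      Nat.ceil_lt_add_one (by positivity)
    have h2 : 20 * D * h ≤ L := by
      calc 20 * D * h ≤ 20 * (1 / 4000) * h := by gcongr
        _ ≤ L := by linarith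
    rw [← hDdef, ← hhdef]
    linarith
  have hlogR : Real.log (Rr c4 x H) ≤ L := by
    rw [hLdef]
    refine Real.log_le_log ?_ hRx
    have : (2 : ℝ) ≤ Rr c4 x H := by exact_mod_cast hR2
    linarith
  have hlogR0 : 0 ≤ Real.log (Rr c4 x H) := by
    refine Real.log_nonneg ?_
    have : (2 : ℝ) ≤ Rr c4 x H := by exact_mod_cast hR2
    linarith
  have hH16 : 0 < H ^ (-(16 * D)) := Real.rpow_pos_of_pos hH0 _
  have hb0 : 0 < b := lt_of_lt_of_le (Real.rpow_pos_of_pos hH0 _) hbase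
  have hbp : 0 < b ^ (-(c / (kp x H) ^ 2)) := Real.rpow_pos_of_pos hb0 _
  have hmain : (Jj c4 x H : ℝ) * (E * (1 + Real.log (Rr c4 x H)) *
      b ^ (-(c / (kp x H) ^ 2))) ≤ H ^ (-(15 * D)) := by
    calc (Jj c4 x H : ℝ) * (E * (1 + Real.log (Rr c4 x H)) * b ^ (-(c / (kp x H) ^ 2)))
        ≤ (L + 2) * (E * (1 + L) * H ^ (-(16 * D))) := by gcongr
      _ ≤ 6 * L ^ 2 * E * H ^ (-(16 * D)) := by
          have h1 : (L + 2) * (1 + L) ≤ 6 * L ^ 2 := by nlinarith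
          have h2 : 0 ≤ E * H ^ (-(16 * D)) := by positivity
          calc (L + 2) * (E * (1 + L) * H ^ (-(16 * D)))
              = (L + 2) * (1 + L) * (E * H ^ (-(16 * D))) := by ring
            _ ≤ 6 * L ^ 2 * (E * H ^ (-(16 * D))) := mul_le_mul_of_nonneg_right h1 h2
            _ = 6 * L ^ 2 * E * H ^ (-(16 * D)) := by ring
      _ ≤ H ^ D * H ^ (-(16 * D)) := mul_le_mul_of_nonneg_right hbg hH16.le
      _ = H ^ (-(15 * D)) := by
          rw [← Real.rpow_add hH0]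
          congr 1
          ring
  have h15 : H ^ (-(15 * D)) ≤ H ^ (-(12 * D)) :=
    Real.rpow_le_rpow_of_exponent_le hH1.le (by linarith)
  have het : et c4 x H = H ^ (-(12 * D)) := rfl
  have h6 : 0 < H ^ (-(6 * D)) := Real.rpow_pos_of_pos hH0 _
  have h12 : H ^ (-(12 * D)) = (H ^ (-(6 * D))) ^ 2 := by
    rw [← Real.rpow_natCast, ← Real.rpow_mul hH0.le]
    congr 1
    push_cast
    ring
  have hs : Real.sqrt (5 * et c4 x H + (Jj c4 x H : ℝ) * (E * (1 + Real.log (Rr c4 x H)) *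
      b ^ (-(c / (kp x H) ^ 2)))) ≤ 3 * H ^ (-(6 * D)) := by
    rw [Real.sqrt_le_left (by positivity), het]
    have h12p : 0 < H ^ (-(12 * D)) := Real.rpow_pos_of_pos hH0 _
    calc 5 * H ^ (-(12 * D)) + (Jj c4 x H : ℝ) * (E * (1 + Real.log (Rr c4 x H)) *
          b ^ (-(c / (kp x H) ^ 2))) ≤ 5 * H ^ (-(12 * D)) + H ^ (-(12 * D)) := by linarith
      _ ≤ 9 * H ^ (-(12 * D)) := by linarith
      _ = (3 * H ^ (-(6 * D))) ^ 2 := by rw [h12]; ring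
  have hG : 4 / (Gg c4 x H : ℝ) ≤ 4 * H ^ (-(6 * D)) := by
    have h6p : 0 < H ^ (6 * D) := Real.rpow_pos_of_pos hH0 _
    rw [Real.rpow_neg hH0.le, div_eq_mul_inv]
    refine mul_le_mul_of_nonneg_left ?_ (by norm_num)
    exact inv_anti₀ h6p hG6
  linarith

end Pool.Agent.H49.BT
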