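import Pool.Agent.H49.BT.B2s

/-!
# [H49 BT TR] From the Bernoulli functions to the exponential form

PROOF. By `b2s` for `u = y/lcm`, with `|l d l e lcm| ≤ R^2` (`lcm ≤ d e ≤ R^2`) and `R^2` pairs:
`|W - ∑_{k ≤ K} (1/(π^2 k^2)) ∑_{d,e} l l lcm cos(2π k y/lcm)| ≤ R^4/K`. The inner double sum is the real part of `T l R (k y)`
(`ee v = exp(2π v i)`, real part `cos(2π v)`), so it is `≤ Tm` in absolute value, and `∑_{k ≤ K} 1/(π^2 k^2) ≤ 1`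
(`∑_{k≤K} 1/k^2 ≤ 2 ≤ π^2`). `Tm ≥ 0` because `K ≥ 1`.
-/

set_option autoImplicit false

namespace Pool.Agent.H49.BT

open Finset

private theorem tr_re (v : ℝ) : (H24.AB.ee v).re = Real.cos (2 * Real.pi * v) := by
  have h : H24.AB.ee v = Complex.exp (((2 * Real.pi * v : ℝ) : ℂ) * Complex.I) := by
    unfold H24.AB.ee
    congr 1
    push_cast
    ring
  rw [h, Complex.exp_ofReal_mul_I_re]

private theorem tr_T (l : ℕ → ℝ) (R : ℕ) (z : ℝ) : (T l R z).re =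
    ∑ d ∈ Icc 1 R, ∑ e ∈ Icc 1 R,
      (l d * l e * (d.lcm e : ℝ)) * Real.cos (2 * Real.pi * (z / (d.lcm e : ℝ))) := by
  unfold T
  rw [Complex.re_sum]
  refine sum_congr rfl fun d _ => ?_
  rw [Complex.re_sum]
  refine sum_congr rfl fun e _ => ?_
  rw [Complex.re_ofReal_mul, tr_re]

private theorem tr_sq (K : ℕ) : ∑ k ∈ Icc 1 K, 1 / (Real.pi ^ 2 * (k : ℝ) ^ 2) ≤ 1 := by
  have h1 : ∀ K : ℕ, ∑ k ∈ Icc 1 (K + 1), 1 / ((k : ℝ) ^ 2) ≤ 2 - 1 / ((K : ℝ) + 1) := by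
    intro K
    induction K with
    | zero => norm_num
    | succ K ih =>
      rw [sum_Icc_succ_top (by omega)]
      refine (add_le_add ih le_rfl).trans ?_
      push_cast
      have hK : (0 : ℝ) ≤ K := Nat.cast_nonneg K
      have h2 : 1 / ((K : ℝ) + 1 + 1) ^ 2 ≤ 1 / (((K : ℝ) + 1) * ((K : ℝ) + 1 + 1)) := by
        apply one_div_le_one_div_of_le (by positivity)
        nlinarith
      have h3 : 1 / (((K : ℝ) + 1) * ((K : ℝ) + 1 + 1)) =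
          1 / ((K : ℝ) + 1) - 1 / ((K : ℝ) + 1 + 1) := by
        field_simp
        ring
      linarith
  have h2 : ∑ k ∈ Icc 1 K, 1 / ((k : ℝ) ^ 2) ≤ 2 := by
    rcases K with _ | K
    · norm_num
    · have h3 : (0 : ℝ) ≤ 1 / ((K : ℝ) + 1) := by positivity
      linarith [h1 K]
  have hpi : 2 ≤ Real.pi ^ 2 := by nlinarith [Real.pi_gt_three]
  have h4 : ∑ k ∈ Icc 1 K, 1 / (Real.pi ^ 2 * (k : ℝ) ^ 2) =
      1 / Real.pi ^ 2 * ∑ k ∈ Icc 1 K, 1 / ((k : ℝ) ^ 2) := by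
    rw [mul_sum]
    refine sum_congr rfl fun k _ => ?_
    rw [one_div_mul_one_div]
  rw [h4]
  have hp : 0 < Real.pi ^ 2 := by positivity
  rw [one_div, inv_mul_le_iff₀ hp]
  linarith

theorem tr (l : ℕ → ℝ) (hl : ∀ d, |l d| ≤ 1) (R K : ℕ) (hK : 1 ≤ K) (y Tm : ℝ)
    (hT : ∀ k ∈ Icc 1 K, ‖T l R ((k : ℝ) * y)‖ ≤ Tm) :
    |W l R y| ≤ Tm + (R : ℝ) ^ 4 / K := by
  have hK0 : (0 : ℝ) < K := by exact_mod_cast hK
  have hTm : 0 ≤ Tm := (norm_nonneg _).trans (hT 1 (mem_Icc.2 ⟨le_rfl, hK⟩))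
  obtain ⟨S, hS⟩ : ∃ S : ℝ, S = ∑ d ∈ Icc 1 R, ∑ e ∈ Icc 1 R, l d * l e * (d.lcm e : ℝ) *
      ∑ k ∈ Icc 1 K, Real.cos (2 * Real.pi * k * (y / (d.lcm e : ℝ))) / (Real.pi ^ 2 * (k : ℝ) ^ 2) :=
    ⟨_, rfl⟩
  have hG : ∀ d ∈ Icc 1 R, ∀ e ∈ Icc 1 R, |l d * l e * (d.lcm e : ℝ)| ≤ (R : ℝ) ^ 2 := by
    intro d hd e he
    rw [abs_mul, abs_mul, Nat.abs_cast]
    have h1 : (d.lcm e : ℝ) ≤ (R : ℝ) ^ 2 := by
      have h2 : d.lcm e ≤ R ^ 2 := by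
        rw [mem_Icc] at hd he
        calc d.lcm e ≤ d * e := Nat.le_of_dvd (Nat.mul_pos (by omega) (by omega))
              (Nat.lcm_dvd_mul d e)
          _ ≤ R * R := Nat.mul_le_mul hd.2 he.2
          _ = R ^ 2 := (sq R).symm
      exact_mod_cast h2
    calc |l d| * |l e| * (d.lcm e : ℝ) ≤ 1 * 1 * (R : ℝ) ^ 2 := by
          have := hl d
          have := hl e
          gcongr
      _ = (R : ℝ) ^ 2 := by ring
  have h1 : |W l R y - S| ≤ (R : ℝ) ^ 4 / K := by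
    rw [hS]
    unfold W
    rw [← sum_sub_distrib]
    refine (abs_sum_le_sum_abs _ _).trans ?_
    calc ∑ d ∈ Icc 1 R, |∑ e ∈ Icc 1 R, l d * l e * (d.lcm e : ℝ) * B2 (y / (d.lcm e : ℝ)) -
          ∑ e ∈ Icc 1 R, l d * l e * (d.lcm e : ℝ) *
          ∑ k ∈ Icc 1 K, Real.cos (2 * Real.pi * k * (y / (d.lcm e : ℝ))) /
            (Real.pi ^ 2 * (k : ℝ) ^ 2)|
        ≤ ∑ _d ∈ Icc 1 R, ∑ _e ∈ Icc 1 R, (R : ℝ) ^ 2 * (1 / K) := by
          refine sum_le_sum fun d hd => ?_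
          rw [← sum_sub_distrib]
          refine (abs_sum_le_sum_abs _ _).trans (sum_le_sum fun e he => ?_)
          rw [← mul_sub, abs_mul]
          exact mul_le_mul (hG d hd e he) (b2s _ K hK) (abs_nonneg _) (by positivity)
      _ = (R : ℝ) ^ 4 / K := by
          rw [sum_const, sum_const, Nat.card_Icc, Nat.add_sub_cancel, nsmul_eq_mul, nsmul_eq_mul]
          ring
  have h2 : S = ∑ k ∈ Icc 1 K, 1 / (Real.pi ^ 2 * (k : ℝ) ^ 2) * (T l R ((k : ℝ) * y)).re := by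
    rw [hS]
    simp only [tr_T, mul_sum]
    rw [sum_comm' (s := Icc 1 K) (t := fun _ => Icc 1 R) (t' := Icc 1 R) (s' := fun _ => Icc 1 K)
      (fun x y => by tauto)]
    refine sum_congr rfl fun d _ => ?_
    rw [sum_comm]
    refine sum_congr rfl fun k _ => sum_congr rfl fun e _ => ?_
    have : 2 * Real.pi * ((k : ℝ) * y / (d.lcm e : ℝ)) = 2 * Real.pi * k * (y / (d.lcm e : ℝ)) := by
      ring
    rw [this]
    ring
  have h3 : |S| ≤ Tm := by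
    rw [h2]
    refine (abs_sum_le_sum_abs _ _).trans ?_
    calc ∑ k ∈ Icc 1 K, |1 / (Real.pi ^ 2 * (k : ℝ) ^ 2) * (T l R ((k : ℝ) * y)).re|
        ≤ ∑ k ∈ Icc 1 K, 1 / (Real.pi ^ 2 * (k : ℝ) ^ 2) * Tm := by
          refine sum_le_sum fun k hk => ?_
          rw [abs_mul, abs_of_nonneg (by positivity : 0 ≤ 1 / (Real.pi ^ 2 * (k : ℝ) ^ 2))]
          exact mul_le_mul_of_nonneg_left ((Complex.abs_re_le_norm _).trans (hT k hk))
            (by positivity)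
      _ = (∑ k ∈ Icc 1 K, 1 / (Real.pi ^ 2 * (k : ℝ) ^ 2)) * Tm := by rw [sum_mul]
      _ ≤ 1 * Tm := mul_le_mul_of_nonneg_right (tr_sq K) hTm
      _ = Tm := one_mul _
  calc |W l R y| = |S + (W l R y - S)| := by ring_nf
    _ ≤ |S| + |W l R y - S| := abs_add_le _ _
    _ ≤ Tm + (R : ℝ) ^ 4 / K := add_le_add h3 h1

end Pool.Agent.H49.BT
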