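import Pool.Agent.H49.BT.Reg

/-!
# [H49 BT GEE] The sum over `g`, `e`

PROOF. `U_triv`: `|al|, |be| ≤ 1`, `‖ee‖ = 1`, `∑_{a ≤ S} a ≤ S^2`. `gee`: `regroup`, `|μ(e)| ≤ 1`; `S = R/(g e)` (natural division),
`S ≤ R/(ge)` (`Nat.cast_div_le`), so `g e^2 S^4 ≤ R^4/(g^3 e^2)`. For `g, e ≤ G0` use `hU`: total
`≤ E R^4 (∑ 1/g^3)(∑ 1/e^2) ≤ 4 E R^4` (both sums `≤ 2`, `∑_{n=1}^N 1/n^2 ≤ 2`). Otherwise `U_triv`: the sum over `g > G0` or `e > G0` of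
`1/(g^3 e^2)` is `≤ (∑_{g > G0} 1/g^2) 2 + 2 ∑_{e > G0} 1/e^2 ≤ 4/G0` (`∑_{n > G0} 1/n^2 ≤ 1/G0`, `sum_Ioc_inv_sq_le_sub`).
-/

set_option autoImplicit false

namespace Pool.Agent.H49.BT

open Finset

private theorem norm_ee' (u : ℝ) : ‖H24.AB.ee u‖ = 1 := by
  unfold H24.AB.ee
  rw [Complex.norm_exp]
  simp

private theorem sq_two (N : ℕ) : ∑ n ∈ Icc 1 N, 1 / (n : ℝ) ^ 2 ≤ 2 := by
  rcases Nat.eq_zero_or_pos N with h | h
  · subst h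
    simp
  · have h1 : Icc 1 N = insert 1 (Ioc 1 N) := by
      ext k
      rw [mem_Icc, mem_insert, mem_Ioc]
      omega
    rw [h1, Finset.sum_insert (by simp)]
    have h2 := sum_Ioc_inv_sq_le_sub (α := ℝ) one_ne_zero (show 1 ≤ N from h)
    have h3 : ∑ n ∈ Ioc 1 N, 1 / (n : ℝ) ^ 2 = ∑ i ∈ Ioc 1 N, ((i : ℝ) ^ 2)⁻¹ :=
      Finset.sum_congr rfl fun i _ => one_div _
    rw [h3]
    have h4 : (0 : ℝ) ≤ ((N : ℕ) : ℝ)⁻¹ := by positivity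
    simp only [Nat.cast_one, inv_one, one_pow, div_one] at h2 ⊢
    linarith

private theorem sq_tail (N G : ℕ) (hG : 1 ≤ G) :
    ∑ n ∈ Icc 1 N, (if G < n then 1 / (n : ℝ) ^ 2 else 0) ≤ 1 / (G : ℝ) := by
  rw [← Finset.sum_filter]
  have h1 : (Icc 1 N).filter (fun n => G < n) = Ioc G N := by
    ext k
    rw [mem_filter, mem_Icc, mem_Ioc]
    omega
  rw [h1]
  rcases le_or_gt G N with h | h
  · have h2 := sum_Ioc_inv_sq_le_sub (α := ℝ) (show G ≠ 0 by omega) h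
    have h3 : ∑ n ∈ Ioc G N, 1 / (n : ℝ) ^ 2 = ∑ i ∈ Ioc G N, ((i : ℝ) ^ 2)⁻¹ :=
      Finset.sum_congr rfl fun i _ => one_div _
    rw [h3, one_div]
    have h4 : (0 : ℝ) ≤ ((N : ℕ) : ℝ)⁻¹ := by positivity
    linarith
  · rw [Finset.Ioc_eq_empty (by omega), Finset.sum_empty]
    positivity

theorem U_triv (al be : ℕ → ℝ) (ha : ∀ n, |al n| ≤ 1) (hb : ∀ n, |be n| ≤ 1) (S : ℕ) (w : ℝ) :
    ‖U al be S w‖ ≤ (S : ℝ) ^ 4 := by
  unfold U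
  have h1 : ∀ a ∈ Icc 1 S, ∀ b ∈ Icc 1 S,
      ‖((al a * be b * ((a : ℝ) * b) : ℝ) : ℂ) * H24.AB.ee (w / ((a : ℝ) * b))‖ ≤ (S : ℝ) ^ 2 := by
    intro a ha' b hb'
    rw [mem_Icc] at ha' hb'
    rw [norm_mul, norm_ee', mul_one, Complex.norm_real, Real.norm_eq_abs, abs_mul, abs_mul]
    have e1 : |(a : ℝ) * b| = a * b := abs_of_nonneg (by positivity)
    have e2 : (a : ℝ) ≤ S := by exact_mod_cast ha'.2
    have e3 : (b : ℝ) ≤ S := by exact_mod_cast hb'.2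
    rw [e1]
    have e4 : |al a| * |be b| ≤ 1 := mul_le_one₀ (ha a) (abs_nonneg _) (hb b)
    have e5 : (a : ℝ) * b ≤ S * S := mul_le_mul e2 e3 (by positivity) (by positivity)
    calc |al a| * |be b| * ((a : ℝ) * b) ≤ 1 * ((a : ℝ) * b) :=
          mul_le_mul_of_nonneg_right e4 (by positivity)
      _ ≤ (S : ℝ) ^ 2 := by rw [one_mul, sq]; exact e5
  calc ‖∑ a ∈ Icc 1 S, ∑ b ∈ Icc 1 S,
      ((al a * be b * ((a : ℝ) * b) : ℝ) : ℂ) * H24.AB.ee (w / ((a : ℝ) * b))‖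
      ≤ ∑ a ∈ Icc 1 S, ‖∑ b ∈ Icc 1 S,
        ((al a * be b * ((a : ℝ) * b) : ℝ) : ℂ) * H24.AB.ee (w / ((a : ℝ) * b))‖ := norm_sum_le _ _
    _ ≤ ∑ a ∈ Icc 1 S, ∑ b ∈ Icc 1 S, (S : ℝ) ^ 2 :=
        Finset.sum_le_sum fun a ha' => (norm_sum_le _ _).trans
          (Finset.sum_le_sum fun b hb' => h1 a ha' b hb')
    _ = (S : ℝ) ^ 4 := by
        simp only [Finset.sum_const, Nat.card_Icc, nsmul_eq_mul, Nat.add_sub_cancel]
        ring

theorem gee (l : ℕ → ℝ) (hl : ∀ d, |l d| ≤ 1) (R G0 : ℕ) (hG : 1 ≤ G0) (z E : ℝ) (hE : 0 ≤ E)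
    (hU : ∀ g e : ℕ, 1 ≤ g → g ≤ G0 → 1 ≤ e → e ≤ G0 →
      ‖U (fun a => l (g * e * a)) (fun a => l (g * e * a)) (R / (g * e))
        (z / ((g : ℝ) * (e : ℝ) ^ 2))‖ ≤ E * ((R / (g * e) : ℕ) : ℝ) ^ 4) :
    ‖T l R z‖ ≤ (4 * E + 4 / G0) * (R : ℝ) ^ 4 := by
  obtain ⟨u, hu⟩ : ∃ u : ℕ → ℝ, u = fun n : ℕ => 1 / (n : ℝ) ^ 2 := ⟨_, rfl⟩
  obtain ⟨t, ht⟩ : ∃ t : ℕ → ℝ, t = fun n : ℕ => if G0 < n then 1 / (n : ℝ) ^ 2 else 0 :=
    ⟨fun n : ℕ => if G0 < n then 1 / (n : ℝ) ^ 2 else 0, rfl⟩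
  have hu0 : ∀ n, 0 ≤ u n := by
    intro n
    rw [hu]
    positivity
  have ht0 : ∀ n, 0 ≤ t n := by
    intro n
    rw [ht]
    show 0 ≤ if G0 < n then 1 / (n : ℝ) ^ 2 else 0
    split_ifs
    · positivity
    · exact le_rfl
  have hX : ∑ n ∈ Icc 1 R, u n ≤ 2 := by
    rw [hu]
    exact sq_two R
  have hX' : ∑ n ∈ Icc 1 R, t n ≤ 1 / G0 := by
    rw [ht]
    exact sq_tail R G0 hG
  have hX0 : 0 ≤ ∑ n ∈ Icc 1 R, u n := Finset.sum_nonneg fun n _ => hu0 n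
  have hX0' : 0 ≤ ∑ n ∈ Icc 1 R, t n := Finset.sum_nonneg fun n _ => ht0 n
  have hterm : ∀ g ∈ Icc 1 R, ∀ e ∈ Icc 1 R,
      ‖(((ArithmeticFunction.moebius e : ℝ) * ((g : ℝ) * (e : ℝ) ^ 2) : ℝ) : ℂ) *
        U (fun a => l (g * e * a)) (fun a => l (g * e * a)) (R / (g * e))
          (z / ((g : ℝ) * (e : ℝ) ^ 2))‖ ≤
      (R : ℝ) ^ 4 * (E * (u g * u e) + (t g * u e + u g * t e)) := by
    intro g hg e he
    rw [mem_Icc] at hg he
    have hg1 : (1 : ℝ) ≤ g := by exact_mod_cast hg.1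
    have he1 : (1 : ℝ) ≤ e := by exact_mod_cast he.1
    have hmu : |(ArithmeticFunction.moebius e : ℝ)| ≤ 1 := by
      have h1 := ArithmeticFunction.abs_moebius_le_one (n := e)
      exact_mod_cast h1
    obtain ⟨S, hS⟩ : ∃ S : ℕ, S = R / (g * e) := ⟨_, rfl⟩
    have hSle : (S : ℝ) ≤ R / ((g : ℝ) * e) := by
      rw [hS]
      have h1 := Nat.cast_div_le (α := ℝ) (m := R) (n := g * e)
      rwa [Nat.cast_mul] at h1
    have hS4 : (g : ℝ) * (e : ℝ) ^ 2 * (S : ℝ) ^ 4 ≤ (R : ℝ) ^ 4 * (u g * u e) := by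
      have h1 : (S : ℝ) ^ 4 ≤ (R / ((g : ℝ) * e)) ^ 4 := pow_le_pow_left₀ (by positivity) hSle 4
      calc (g : ℝ) * (e : ℝ) ^ 2 * (S : ℝ) ^ 4 ≤ (g : ℝ) * (e : ℝ) ^ 2 * (R / ((g : ℝ) * e)) ^ 4 :=
            mul_le_mul_of_nonneg_left h1 (by positivity)
        _ = (R : ℝ) ^ 4 * (1 / (g : ℝ) ^ 3 * (1 / (e : ℝ) ^ 2)) := by
            field_simp
        _ ≤ (R : ℝ) ^ 4 * (u g * u e) := by
            refine mul_le_mul_of_nonneg_left ?_ (by positivity)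
            rw [hu]
            refine mul_le_mul_of_nonneg_right ?_ (by positivity)
            exact one_div_le_one_div_of_le (by positivity) (pow_le_pow_right₀ hg1 (by norm_num))
    have hfac : ‖U (fun a => l (g * e * a)) (fun a => l (g * e * a)) S
        (z / ((g : ℝ) * (e : ℝ) ^ 2))‖ ≤
          (E + ((if G0 < g then 1 else 0) + (if G0 < e then 1 else 0))) * (S : ℝ) ^ 4 := by
      by_cases h1 : g ≤ G0 ∧ e ≤ G0
      · have h2 := hU g e hg.1 h1.1 he.1 h1.2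
        rw [← hS] at h2
        rw [if_neg (by omega), if_neg (by omega)]
        simpa using h2
      · have h2 := U_triv (fun a => l (g * e * a)) (fun a => l (g * e * a)) (fun n => hl _)
          (fun n => hl _) S (z / ((g : ℝ) * (e : ℝ) ^ 2))
        have h3 : (1 : ℝ) ≤ E + ((if G0 < g then 1 else 0) + (if G0 < e then 1 else 0)) := by
          rw [not_and_or, not_le, not_le] at h1
          rcases h1 with h4 | h4
          · rw [if_pos h4]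
            split_ifs <;> linarith
          · rw [if_pos h4]
            split_ifs <;> linarith
        have h5 : (0 : ℝ) ≤ (S : ℝ) ^ 4 := by positivity
        nlinarith
    rw [← hS, norm_mul, Complex.norm_real, Real.norm_eq_abs, abs_mul]
    have e1 : |(g : ℝ) * (e : ℝ) ^ 2| = (g : ℝ) * (e : ℝ) ^ 2 := abs_of_nonneg (by positivity)
    rw [e1]
    obtain ⟨φ, hφ⟩ : ∃ φ : ℝ, φ = E + ((if G0 < g then 1 else 0) + (if G0 < e then 1 else 0)) :=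
      ⟨_, rfl⟩
    have hφ0 : 0 ≤ φ := by
      rw [hφ]
      have : (0 : ℝ) ≤ (if G0 < g then 1 else 0) + (if G0 < e then 1 else 0) := by
        split_ifs <;> norm_num
      linarith
    rw [← hφ] at hfac
    have ht1 : ∀ n : ℕ, (if G0 < n then (1 : ℝ) else 0) * u n = t n := by
      intro n
      rw [hu, ht]
      show (if G0 < n then (1 : ℝ) else 0) * (1 / (n : ℝ) ^ 2) = if G0 < n then 1 / (n : ℝ) ^ 2 else 0
      split_ifs <;> ring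
    calc |(ArithmeticFunction.moebius e : ℝ)| * ((g : ℝ) * (e : ℝ) ^ 2) *
          ‖U (fun a => l (g * e * a)) (fun a => l (g * e * a)) S (z / ((g : ℝ) * (e : ℝ) ^ 2))‖
        ≤ 1 * ((g : ℝ) * (e : ℝ) ^ 2) * (φ * (S : ℝ) ^ 4) := by
          refine mul_le_mul (mul_le_mul_of_nonneg_right hmu (by positivity)) hfac (norm_nonneg _)
            (by positivity)
      _ = φ * ((g : ℝ) * (e : ℝ) ^ 2 * (S : ℝ) ^ 4) := by ring
      _ ≤ φ * ((R : ℝ) ^ 4 * (u g * u e)) := mul_le_mul_of_nonneg_left hS4 hφ0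
      _ = (R : ℝ) ^ 4 * (E * (u g * u e) + (((if G0 < g then (1 : ℝ) else 0) * u g) * u e +
            u g * ((if G0 < e then (1 : ℝ) else 0) * u e))) := by
          rw [hφ]
          ring
      _ = (R : ℝ) ^ 4 * (E * (u g * u e) + (t g * u e + u g * t e)) := by rw [ht1, ht1]
  rw [regroup]
  calc ‖∑ g ∈ Icc 1 R, ∑ e ∈ Icc 1 R,
      (((ArithmeticFunction.moebius e : ℝ) * ((g : ℝ) * (e : ℝ) ^ 2) : ℝ) : ℂ) *
        U (fun a => l (g * e * a)) (fun a => l (g * e * a)) (R / (g * e))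
          (z / ((g : ℝ) * (e : ℝ) ^ 2))‖
      ≤ ∑ g ∈ Icc 1 R, ∑ e ∈ Icc 1 R, (R : ℝ) ^ 4 * (E * (u g * u e) + (t g * u e + u g * t e)) :=
        (norm_sum_le _ _).trans (Finset.sum_le_sum fun g hg => (norm_sum_le _ _).trans
          (Finset.sum_le_sum fun e he => hterm g hg e he))
    _ = (R : ℝ) ^ 4 * (E * ((∑ n ∈ Icc 1 R, u n) * (∑ n ∈ Icc 1 R, u n)) +
          ((∑ n ∈ Icc 1 R, t n) * (∑ n ∈ Icc 1 R, u n) +
            (∑ n ∈ Icc 1 R, u n) * (∑ n ∈ Icc 1 R, t n))) := by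
        simp only [Finset.sum_mul_sum, ← Finset.mul_sum, Finset.sum_add_distrib]
    _ ≤ (R : ℝ) ^ 4 * (E * (2 * 2) + ((1 / G0) * 2 + 2 * (1 / G0))) := by
        refine mul_le_mul_of_nonneg_left ?_ (by positivity)
        have k1 := mul_le_mul hX hX hX0 (by norm_num : (0 : ℝ) ≤ 2)
        have k2 := mul_le_mul hX' hX hX0 (by positivity : (0 : ℝ) ≤ 1 / G0)
        have k3 := mul_le_mul hX hX' hX0' (by norm_num : (0 : ℝ) ≤ 2)
        have k4 := mul_le_mul_of_nonneg_left k1 hE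
        linarith
    _ = (4 * E + 4 / G0) * (R : ℝ) ^ 4 := by ring

end Pool.Agent.H49.BT
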