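import Pool.Agent.H49.BT.Rmp

/-!
# [H49 BT MAJ] The trapezoid summed over the multiples of `D`

PROOF. `F_nonneg`: `ψ(v) = rp(v+Δ) - rp(v)` is nondecreasing (cases), `Δ F(u) = ψ(u-x) - ψ(u-x-H-Δ) ≥ 0`
(or by `max` cases and `linarith`, `rp v = max v 0`). `F_one`: for `x ≤ u ≤ x + H` the four ramps are `u-x+Δ, u-x, 0, 0`.
`maj`: `n = m D`, `m ∈ Icc 1 (N/D)` (`Nat.card`-free: `Finset.sum_nbij'` or `sum_bij` with `m ↦ m * D`);
`rp(m D - y) = D rp(m - y/D)`; `ramp` for `u = y/D ≥ 0`, `⌊y/D⌋₊ ≤ N/D` (`Nat.floor_div_natCast`, `Nat.div_le_div_right`,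
`⌊y⌋₊ ≤ N` as `y ≤ N`, `Nat.floor_le_of_le`). With `s = (1,-1,-1,1)`, `u_i = y_i/D`, `M = N/D`: `∑ s_i = 0`, `∑ s_i u_i = 0`, so
`∑ s_i ((M-u_i)^2 + (M-u_i) + 1/6 - B2 u_i) = ∑ s_i u_i^2 - ∑ s_i B2 u_i` and
`∑ s_i y_i^2 = 2 H Δ + 2 Δ^2`; multiply by `D/(2Δ)`.
-/

set_option autoImplicit false

namespace Pool.Agent.H49.BT

open Finset

theorem F_nonneg (x H Δ u : ℝ) (hΔ : 0 < Δ) (hH : 0 ≤ H) : 0 ≤ F x H Δ u := by
  unfold F
  refine div_nonneg ?_ hΔ.le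
  simp only [rp]
  rcases max_cases (u - (x - Δ)) 0 with h1 | h1 <;> rcases max_cases (u - x) 0 with h2 | h2 <;>
    rcases max_cases (u - (x + H)) 0 with h3 | h3 <;>
    rcases max_cases (u - (x + H + Δ)) 0 with h4 | h4 <;>
    rw [h1.1, h2.1, h3.1, h4.1] <;> linarith [h1.2, h2.2, h3.2, h4.2]

theorem F_one (x H Δ u : ℝ) (hΔ : 0 < Δ) (hx : x ≤ u) (hu : u ≤ x + H) : 1 ≤ F x H Δ u := by
  unfold F
  rw [le_div_iff₀ hΔ]
  simp only [rp]
  rw [max_eq_left (by linarith), max_eq_left (by linarith), max_eq_right (by linarith),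
    max_eq_right (by linarith)]
  linarith

private theorem mj_rp (D : ℕ) (hD : 1 ≤ D) (m : ℕ) (y : ℝ) :
    rp (((m * D : ℕ) : ℝ) - y) = (D : ℝ) * rp ((m : ℝ) - y / D) := by
  have h0 : (0 : ℝ) < D := by exact_mod_cast hD
  unfold rp
  rw [mul_max_of_nonneg _ _ h0.le, mul_zero]
  congr 1
  push_cast
  field_simp

private theorem mj_sum (D N : ℕ) (hD : 1 ≤ D) (y : ℝ) (hy : 0 ≤ y) (hyN : y ≤ N) :
    ∑ m ∈ Icc 1 (N / D), rp (((m * D : ℕ) : ℝ) - y) =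
      (D : ℝ) * (((((N / D : ℕ) : ℝ) - y / D) ^ 2 + (((N / D : ℕ) : ℝ) - y / D) +
        (1 / 6 - B2 (y / D))) / 2) := by
  have h0 : (0 : ℝ) < D := by exact_mod_cast hD
  rw [← ramp (y / D) (by positivity) (N / D) ?_, mul_sum]
  · exact sum_congr rfl fun m _ => mj_rp D hD m y
  · rw [Nat.floor_div_natCast]
    exact Nat.div_le_div_right (Nat.floor_le_of_le hyN)

theorem maj (x H Δ : ℝ) (hΔ : 0 < Δ) (hx : Δ ≤ x) (hH : 0 ≤ H) (D N : ℕ) (hD : 1 ≤ D)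
    (hN : x + H + Δ ≤ N) :
    ∑ n ∈ (Icc 1 N).filter (fun n => D ∣ n), F x H Δ n =
      (H + Δ) / D - (D : ℝ) / (2 * Δ) * (B2 ((x - Δ) / D) - B2 (x / D) - B2 ((x + H) / D)
        + B2 ((x + H + Δ) / D)) := by
  have h0 : (0 : ℝ) < D := by exact_mod_cast hD
  have hre : ∑ n ∈ (Icc 1 N).filter (fun n => D ∣ n), F x H Δ n =
      ∑ m ∈ Icc 1 (N / D), F x H Δ ((m * D : ℕ) : ℝ) := by
    symm
    refine sum_bij (fun m _ => m * D) ?_ ?_ ?_ ?_
    · intro m hm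
      rw [mem_Icc] at hm
      rw [mem_filter, mem_Icc]
      refine ⟨⟨Nat.mul_pos hm.1 hD, ?_⟩, Dvd.intro_left m rfl⟩
      exact (Nat.mul_le_mul_right D hm.2).trans (Nat.div_mul_le_self N D)
    · intro m _ m' _ h
      exact Nat.eq_of_mul_eq_mul_right hD h
    · intro n hn
      rw [mem_filter, mem_Icc] at hn
      obtain ⟨⟨h1, h2⟩, k, hk⟩ := hn
      refine ⟨k, ?_, by rw [hk, mul_comm]⟩
      rw [mem_Icc]
      constructor
      · rcases Nat.eq_zero_or_pos k with h3 | h3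
        · rw [h3, mul_zero] at hk
          omega
        · exact h3
      · rw [Nat.le_div_iff_mul_le hD, mul_comm, ← hk]
        exact h2
    · intro m _
      rfl
  rw [hre]
  unfold F
  rw [← sum_div, sum_add_distrib, sum_sub_distrib, sum_sub_distrib,
    mj_sum D N hD (x - Δ) (by linarith) (by linarith), mj_sum D N hD x (by linarith) (by linarith),
    mj_sum D N hD (x + H) (by linarith) (by linarith),
    mj_sum D N hD (x + H + Δ) (by linarith) (by linarith)]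
  field_simp
  ring

end Pool.Agent.H49.BT
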