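import Pool.Agent.H49.BT.Defs

/-!
# [H49 BT NUMO] The range and the growth of `H^D`

PROOF. `L = log x`, `h = log H`. `bas`: `H > 0`, so `Real.log_le_log` in `Rng`: `L^(9/10) ≤ h` and `h ≤ L/2` (`Real.log_rpow`);
`L → ∞`. `M ≤ log H`: `L^(9/10) → ∞`. `big`: `H^D = exp(c4 (h/L)^2 h) = exp(c4 h^3/L^2) ≥ exp(c4 L^(27/10 - 2)) = exp(c4 L^(7/10))`,
`kp = 5 L/h ≤ 5 L^(1/10)`, `exp(C kp^3) ≤ exp(125 C L^(3/10))`; with `u = L^(1/10)`: `M u^(10k) exp(125 C u^3) ≤ exp(c4 u^7)` for large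
`u` (e.g. `125 C u^3 ≤ (c4/2) u^7`, and `M u^(10 k) ≤ exp(u) ≤ exp((c4/2) u^7)`; `Real.tendsto_pow_mul_exp_neg_atTop_nhds_zero`).
-/

set_option autoImplicit false

namespace Pool.Agent.H49.BT

open Filter

theorem bas (M : ℝ) : ∀ᶠ x : ℝ in atTop, ∀ H : ℝ, Rng x H →
    M ≤ Real.log H ∧ 1 ≤ Real.log x ∧ (Real.log x) ^ (9 / 10 : ℝ) ≤ Real.log H ∧
      Real.log H ≤ Real.log x / 2 ∧ 1 < H ∧ M ≤ x := by
  have h1 : ∀ᶠ x : ℝ in atTop, 1 ≤ Real.log x :=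
    Real.tendsto_log_atTop.eventually_ge_atTop 1
  have h2 : ∀ᶠ x : ℝ in atTop, M ≤ (Real.log x) ^ (9 / 10 : ℝ) :=
    ((tendsto_rpow_atTop (by norm_num : (0 : ℝ) < 9 / 10)).comp
      Real.tendsto_log_atTop).eventually_ge_atTop M
  filter_upwards [h1, h2, eventually_ge_atTop M, eventually_gt_atTop 0] with x h1 h2 h3 h4
  intro H hH
  obtain ⟨ha, hb⟩ := hH
  have hL : (1 : ℝ) ≤ (Real.log x) ^ (9 / 10 : ℝ) := Real.one_le_rpow h1 (by norm_num)
  have hH0 : 0 < H := lt_of_lt_of_le (Real.exp_pos _) ha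
  have hl : (Real.log x) ^ (9 / 10 : ℝ) ≤ Real.log H := by
    rw [Real.le_log_iff_exp_le hH0]
    exact ha
  refine ⟨le_trans h2 hl, h1, hl, ?_, ?_, h3⟩
  · have := Real.log_le_log hH0 hb
    rw [Real.log_rpow h4] at this
    linarith
  · refine lt_of_lt_of_le ?_ ha
    rw [Real.one_lt_exp_iff]
    linarith

private theorem evu (c4 C M : ℝ) (k : ℕ) (hc4 : 0 < c4) :
    ∀ᶠ u : ℝ in atTop, M * u ^ (10 * k) * Real.exp (125 * C * u ^ 3) ≤
      Real.exp (c4 * u ^ 7) := by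
  have h1 : ∀ᶠ u : ℝ in atTop, |M| * (u ^ (10 * k) * Real.exp (-u)) < 1 := by
    have := (Real.tendsto_pow_mul_exp_neg_atTop_nhds_zero (10 * k)).const_mul |M|
    rw [mul_zero] at this
    exact this.eventually (gt_mem_nhds zero_lt_one)
  have h2 : ∀ᶠ u : ℝ in atTop, (125 * C + 1) / c4 ≤ u := eventually_ge_atTop _
  filter_upwards [h1, h2, eventually_ge_atTop 1] with u h1 h2 h3
  have h4 : 125 * C + 1 ≤ c4 * u := by
    rw [div_le_iff₀ hc4] at h2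
    linarith
  have h5 : 125 * C + 1 ≤ c4 * u ^ 4 := by
    refine h4.trans (mul_le_mul_of_nonneg_left ?_ hc4.le)
    calc u = u ^ 1 := (pow_one u).symm
      _ ≤ u ^ 4 := pow_le_pow_right₀ h3 (by norm_num)
  have h6 : u + 125 * C * u ^ 3 ≤ c4 * u ^ 7 := by
    have hu3 : u ≤ u ^ 3 := by
      calc u = u ^ 1 := (pow_one u).symm
        _ ≤ u ^ 3 := pow_le_pow_right₀ h3 (by norm_num)
    have hp : 0 ≤ u ^ 3 := by positivity
    have := mul_le_mul_of_nonneg_right h5 hp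
    calc u + 125 * C * u ^ 3 ≤ (125 * C + 1) * u ^ 3 := by linarith
      _ ≤ c4 * u ^ 4 * u ^ 3 := this
      _ = c4 * u ^ 7 := by ring
  have h7 : M * u ^ (10 * k) ≤ Real.exp u := by
    have hp : 0 ≤ u ^ (10 * k) := by positivity
    have h8 : |M| * u ^ (10 * k) ≤ Real.exp u := by
      have h9 : |M| * u ^ (10 * k) * Real.exp (-u) ≤ 1 := by
        rw [mul_assoc]
        exact h1.le
      rw [Real.exp_neg] at h9
      have := (div_le_one (Real.exp_pos u)).1 (by rwa [div_eq_mul_inv])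
      exact this
    exact (mul_le_mul_of_nonneg_right (le_abs_self M) hp).trans h8
  calc M * u ^ (10 * k) * Real.exp (125 * C * u ^ 3)
      ≤ Real.exp u * Real.exp (125 * C * u ^ 3) :=
        mul_le_mul_of_nonneg_right h7 (Real.exp_pos _).le
    _ = Real.exp (u + 125 * C * u ^ 3) := (Real.exp_add _ _).symm
    _ ≤ Real.exp (c4 * u ^ 7) := Real.exp_le_exp.2 h6

theorem big (c4 C M : ℝ) (k : ℕ) (hc4 : 0 < c4) (hC : 0 ≤ C) : ∀ᶠ x : ℝ in atTop,
    ∀ H : ℝ, Rng x H →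
    M * (Real.log x) ^ k * Real.exp (C * (kp x H) ^ 3) ≤ H ^ (Dd c4 x H) := by
  have h1 : ∀ᶠ x : ℝ in atTop, |M| * ((Real.log x) ^ (1 / 10 : ℝ)) ^ (10 * k) *
      Real.exp (125 * C * ((Real.log x) ^ (1 / 10 : ℝ)) ^ 3) ≤
      Real.exp (c4 * ((Real.log x) ^ (1 / 10 : ℝ)) ^ 7) :=
    ((tendsto_rpow_atTop (by norm_num : (0 : ℝ) < 1 / 10)).comp
      Real.tendsto_log_atTop).eventually (evu c4 C |M| k hc4)
  filter_upwards [h1, bas 1] with x h1 h2
  intro H hH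
  obtain ⟨_, hL1, hLh, _, hH1, _⟩ := h2 H hH
  set L := Real.log x with hLdef
  set h := Real.log H with hhdef
  set u := L ^ (1 / 10 : ℝ) with hu
  have hL0 : 0 < L := by linarith
  have hu1 : 1 ≤ u := Real.one_le_rpow hL1 (by norm_num)
  have hu0 : 0 < u := by linarith
  have hu10 : u ^ 10 = L := by
    rw [hu, ← Real.rpow_natCast, ← Real.rpow_mul hL0.le]
    norm_num
  have hu9 : u ^ 9 = L ^ (9 / 10 : ℝ) := by
    rw [hu, ← Real.rpow_natCast, ← Real.rpow_mul hL0.le]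
    norm_num
  have hh9 : u ^ 9 ≤ h := by rw [hu9]; exact hLh
  have hh0 : 0 < h := lt_of_lt_of_le (by positivity) hh9
  have hkp : kp x H ≤ 5 * u := by
    unfold kp
    rw [div_le_iff₀ hh0, ← hLdef, ← hu10]
    calc 5 * u ^ 10 = 5 * u * u ^ 9 := by ring
      _ ≤ 5 * u * h := by gcongr
  have hkp0 : 0 ≤ kp x H := by
    unfold kp
    positivity
  have hkp3 : C * (kp x H) ^ 3 ≤ 125 * C * u ^ 3 := by
    calc C * (kp x H) ^ 3 ≤ C * (5 * u) ^ 3 := by gcongr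
      _ = 125 * C * u ^ 3 := by ring
  have hHD : Real.exp (c4 * u ^ 7) ≤ H ^ (Dd c4 x H) := by
    rw [Real.rpow_def_of_pos (by linarith)]
    refine Real.exp_le_exp.2 ?_
    unfold Dd
    rw [← hLdef, ← hhdef]
    have e1 : h * (c4 * (h / L) ^ 2) = c4 * (h ^ 3 / L ^ 2) := by
      field_simp
    rw [e1]
    refine mul_le_mul_of_nonneg_left ?_ hc4.le
    rw [le_div_iff₀ (by positivity), ← hu10]
    calc u ^ 7 * (u ^ 10) ^ 2 = (u ^ 9) ^ 3 := by ring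
      _ ≤ h ^ 3 := by gcongr
  have hLk : L ^ k = u ^ (10 * k) := by rw [← hu10, ← pow_mul]
  calc M * L ^ k * Real.exp (C * (kp x H) ^ 3)
      ≤ |M| * L ^ k * Real.exp (125 * C * u ^ 3) := by
        refine mul_le_mul ?_ (Real.exp_le_exp.2 hkp3) (Real.exp_pos _).le (by positivity)
        exact mul_le_mul_of_nonneg_right (le_abs_self M) (by positivity)
    _ = |M| * u ^ (10 * k) * Real.exp (125 * C * u ^ 3) := by rw [hLk]
    _ ≤ Real.exp (c4 * u ^ 7) := h1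
    _ ≤ H ^ (Dd c4 x H) := hHD

end Pool.Agent.H49.BT
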