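import Pool.Agent.H49.BT.Cau

/-!
# [H49 BT PRS] Pairs

PROOF. `V_triv`: `S` terms of absolute value `1`. `V_neg`: `ee(-u) = conj(ee u)`. `prs`: `cau`; for fixed `b` the `c` with
`b ≤ c + P` and `c ≤ b + P` are at most `2P+1` (`V_triv`); the others have `b + P < c` (`hV`) or `c + P < b` (then
`w(1/b-1/c) = -(w(1/c-1/b))`, `V_neg`, `hV`), at most `S` of them. So the double sum is `≤ S ((2P+1) S + S E)`.
-/

set_option autoImplicit false

namespace Pool.Agent.H49.BT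

open Finset

private theorem norm_ee (u : ℝ) : ‖H24.AB.ee u‖ = 1 := by
  unfold H24.AB.ee
  rw [Complex.norm_exp]
  simp

private theorem ee_neg (u : ℝ) : H24.AB.ee (-u) = (starRingEnd ℂ) (H24.AB.ee u) := by
  unfold H24.AB.ee
  rw [← Complex.exp_conj]
  congr 1
  rw [map_mul, map_mul, map_mul, Complex.conj_ofReal, Complex.conj_ofReal, Complex.conj_I,
    map_ofNat, Complex.ofReal_neg]
  ring

theorem V_triv (S : ℕ) (Y : ℝ) : ‖V S Y‖ ≤ S := by
  unfold V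
  calc ‖∑ a ∈ Icc 1 S, H24.AB.ee (Y / (a : ℝ))‖ ≤ ∑ a ∈ Icc 1 S, ‖H24.AB.ee (Y / (a : ℝ))‖ :=
        norm_sum_le _ _
    _ = ∑ a ∈ Icc 1 S, (1 : ℝ) := Finset.sum_congr rfl fun a _ => norm_ee _
    _ = S := by simp

theorem V_neg (S : ℕ) (Y : ℝ) : ‖V S (-Y)‖ = ‖V S Y‖ := by
  have h : V S (-Y) = (starRingEnd ℂ) (V S Y) := by
    unfold V
    rw [map_sum]
    refine Finset.sum_congr rfl fun a _ => ?_
    rw [neg_div, ee_neg]
  rw [h, RCLike.norm_conj]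

theorem prs (al be : ℕ → ℝ) (ha : ∀ n, |al n| ≤ 1) (hb : ∀ n, |be n| ≤ 1) (S P : ℕ) (w E : ℝ)
    (hE : 0 ≤ E)
    (hV : ∀ b c : ℕ, 1 ≤ b → b + P < c → c ≤ S →
      ‖V S (w * (1 / (b : ℝ) - 1 / (c : ℝ)))‖ ≤ E) :
    ‖U al be S w‖ ^ 2 ≤ (S : ℝ) ^ 7 * (2 * P + 1 + E) := by
  have hterm : ∀ b ∈ Icc 1 S, ∀ c ∈ Icc 1 S, ‖V S (w * (1 / (b : ℝ) - 1 / (c : ℝ)))‖ ≤
      (if b ≤ c + P ∧ c ≤ b + P then (S : ℝ) else 0) + E := by
    intro b hb c hc
    rw [mem_Icc] at hb hc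
    split_ifs with h
    · have := V_triv S (w * (1 / (b : ℝ) - 1 / (c : ℝ)))
      linarith
    · rw [zero_add]
      rcases lt_or_ge (b + P) c with h1 | h1
      · exact hV b c hb.1 h1 hc.2
      · have h2 : c + P < b := by
          by_contra h3
          exact h ⟨by omega, by omega⟩
        have h3 : w * (1 / (b : ℝ) - 1 / (c : ℝ)) = -(w * (1 / (c : ℝ) - 1 / (b : ℝ))) := by ring
        rw [h3, V_neg]
        exact hV c b hc.1 h2 hb.2
  have hrow : ∀ b ∈ Icc 1 S, ∑ c ∈ Icc 1 S, ‖V S (w * (1 / (b : ℝ) - 1 / (c : ℝ)))‖ ≤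
      (2 * P + 1) * S + S * E := by
    intro b hb
    calc ∑ c ∈ Icc 1 S, ‖V S (w * (1 / (b : ℝ) - 1 / (c : ℝ)))‖
        ≤ ∑ c ∈ Icc 1 S, ((if b ≤ c + P ∧ c ≤ b + P then (S : ℝ) else 0) + E) :=
          Finset.sum_le_sum fun c hc => hterm b hb c hc
      _ = (((Icc 1 S).filter fun c => b ≤ c + P ∧ c ≤ b + P).card : ℝ) * S + S * E := by
          rw [Finset.sum_add_distrib, ← Finset.sum_filter, Finset.sum_const, Finset.sum_const,
            Nat.card_Icc, nsmul_eq_mul, nsmul_eq_mul, Nat.add_sub_cancel]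
      _ ≤ (2 * P + 1) * S + S * E := by
          have h1 : ((Icc 1 S).filter fun c => b ≤ c + P ∧ c ≤ b + P).card ≤ 2 * P + 1 := by
            refine (Finset.card_le_card (t := Icc (b - P) (b + P)) ?_).trans ?_
            · intro c hc
              rw [mem_filter] at hc
              rw [mem_Icc]
              omega
            · rw [Nat.card_Icc]
              omega
          have h2 : (((Icc 1 S).filter fun c => b ≤ c + P ∧ c ≤ b + P).card : ℝ) ≤ 2 * P + 1 := by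
            exact_mod_cast h1
          have h3 := mul_le_mul_of_nonneg_right h2 (Nat.cast_nonneg (α := ℝ) S)
          linarith
  have hall : ∑ b ∈ Icc 1 S, ∑ c ∈ Icc 1 S, ‖V S (w * (1 / (b : ℝ) - 1 / (c : ℝ)))‖ ≤
      S * ((2 * P + 1) * S + S * E) := by
    calc ∑ b ∈ Icc 1 S, ∑ c ∈ Icc 1 S, ‖V S (w * (1 / (b : ℝ) - 1 / (c : ℝ)))‖
        ≤ ∑ b ∈ Icc 1 S, ((2 * P + 1) * S + S * E : ℝ) := Finset.sum_le_sum hrow
      _ = S * ((2 * P + 1) * S + S * E) := by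
          rw [Finset.sum_const, Nat.card_Icc, nsmul_eq_mul, Nat.add_sub_cancel]
  calc ‖U al be S w‖ ^ 2 ≤ (S : ℝ) ^ 5 *
      ∑ b ∈ Icc 1 S, ∑ c ∈ Icc 1 S, ‖V S (w * (1 / (b : ℝ) - 1 / (c : ℝ)))‖ := cau al be ha hb S w
    _ ≤ (S : ℝ) ^ 5 * (S * ((2 * P + 1) * S + S * E)) :=
        mul_le_mul_of_nonneg_left hall (by positivity)
    _ = (S : ℝ) ^ 7 * (2 * P + 1 + E) := by ring

end Pool.Agent.H49.BT
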