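import Pool.Agent.H49.BT.Defs

/-!
# [H49 BT REG] Regrouping by the greatest common divisor

PROOF. The pairs `(d,e')`, `1 ≤ d,e' ≤ R`, correspond to the triples `(g,a,b)` with `g = gcd d e' ∈ [1,R]`, `d = g a`, `e' = g b`,
`a, b ∈ [1, R/g]`, `a, b` coprime; `lcm = g a b`. So
`T = ∑_{g ≤ R} ∑_{a,b ≤ R/g} [gcd a b = 1] l(ga) l(gb) g a b ee(z/(g a b))`.
`[gcd a b = 1] = ∑_{e ∣ gcd a b} μ(e)` (`ArithmeticFunction.sum_moebius...`: `∑ d ∈ n.divisors, μ d = if n = 1 then 1 else 0`,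
`ArithmeticFunction.moebius_mul_coe_zeta`); write `∑_{e ∈ Icc 1 R, e ∣ a, e ∣ b}`, `a = e a1`, `b = e b1` with
`a1, b1 ∈ [1, R/g/e] = [1, R/(g e)]` (`Nat.div_div_eq_div_mul`). Then `l(g a) = l(g e a1)`, `g a b = g e^2 a1 b1` and
`z/(g e^2 a1 b1) = (z/(g e^2))/(a1 b1)`. For `g e > R` the inner sum is empty.
-/

set_option autoImplicit false

namespace Pool.Agent.H49.BT

open Finset

private theorem reg_mult (k M : ℕ) (hk : 1 ≤ k) (φ : ℕ → ℂ) :
    ∑ a ∈ (Icc 1 M).filter (fun a => k ∣ a), φ a = ∑ a ∈ Icc 1 (M / k), φ (k * a) := by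
  have h : (Icc 1 M).filter (fun a => k ∣ a) = (Icc 1 (M / k)).image (fun a => k * a) := by
    ext a
    simp only [mem_filter, mem_Icc, mem_image]
    constructor
    · rintro ⟨⟨h1, h2⟩, c, rfl⟩
      refine ⟨c, ⟨?_, ?_⟩, rfl⟩
      · rcases Nat.eq_zero_or_pos c with h0 | h0
        · subst h0
          simp at h1
        · exact h0
      · rw [Nat.le_div_iff_mul_le (by omega), mul_comm]
        exact h2
    · rintro ⟨c, ⟨h1, h2⟩, rfl⟩
      rw [Nat.le_div_iff_mul_le (by omega), mul_comm] at h2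
      exact ⟨⟨Nat.mul_pos (by omega) (by omega), h2⟩, dvd_mul_right _ _⟩
  rw [h, Finset.sum_image]
  intro a _ b _ hab
  exact Nat.eq_of_mul_eq_mul_left (by omega) hab

private theorem reg_mob (n R : ℕ) (hn : 1 ≤ n) (hR : n ≤ R) :
    (∑ e ∈ Icc 1 R, if e ∣ n then ((ArithmeticFunction.moebius e : ℤ) : ℂ) else 0) =
      if n = 1 then 1 else 0 := by
  rw [← Finset.sum_filter]
  have h : (Icc 1 R).filter (fun e => e ∣ n) = n.divisors := by
    ext e
    simp only [mem_filter, mem_Icc, Nat.mem_divisors]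
    constructor
    · rintro ⟨_, h2⟩
      exact ⟨h2, by omega⟩
    · rintro ⟨h1, _⟩
      exact ⟨⟨Nat.pos_of_dvd_of_pos h1 (by omega), (Nat.le_of_dvd (by omega) h1).trans hR⟩, h1⟩
  rw [h]
  have h3 : (∑ e ∈ n.divisors, (ArithmeticFunction.moebius e : ℤ)) = if n = 1 then 1 else 0 := by
    have := congrArg (fun f : ArithmeticFunction ℤ => f n) ArithmeticFunction.moebius_mul_coe_zeta
    simp only [ArithmeticFunction.coe_mul_zeta_apply, ArithmeticFunction.one_apply] at this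
    exact this
  have h4 := congrArg (fun k : ℤ => (k : ℂ)) h3
  push_cast at h4
  exact h4

/-- the summand of `T` -/
private noncomputable def fT (l : ℕ → ℝ) (z : ℝ) (d e : ℕ) : ℂ :=
  ((l d * l e * (d.lcm e : ℝ) : ℝ) : ℂ) * H24.AB.ee (z / (d.lcm e : ℝ))

/-- the summand after the substitution -/
private noncomputable def hT (l : ℕ → ℝ) (z : ℝ) (g a b : ℕ) : ℂ :=
  ((l (g * a) * l (g * b) * ((g : ℝ) * a * b) : ℝ) : ℂ) * H24.AB.ee (z / ((g : ℝ) * a * b))

private theorem fT_eq (l : ℕ → ℝ) (z : ℝ) (g a b : ℕ) (h : Nat.gcd a b = 1) :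
    fT l z (g * a) (g * b) = hT l z g a b := by
  unfold fT hT
  have h1 : (g * a).lcm (g * b) = g * a * b := by
    rw [Nat.lcm_mul_left, Nat.Coprime.lcm_eq_mul h]
    ring
  rw [h1]
  push_cast
  rfl

/-- one value of the gcd -/
private theorem reg_g (l : ℕ → ℝ) (R : ℕ) (z : ℝ) (g : ℕ) (hg : 1 ≤ g) :
    (∑ d ∈ Icc 1 R, ∑ e ∈ Icc 1 R, if Nat.gcd d e = g then fT l z d e else 0) =
      ∑ e ∈ Icc 1 R, ((ArithmeticFunction.moebius e : ℤ) : ℂ) *
        ∑ a ∈ Icc 1 (R / (g * e)), ∑ b ∈ Icc 1 (R / (g * e)), hT l z g (e * a) (e * b) := by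
  have h1 : (∑ d ∈ Icc 1 R, ∑ e ∈ Icc 1 R, if Nat.gcd d e = g then fT l z d e else 0) =
      ∑ d ∈ (Icc 1 R).filter (fun d => g ∣ d), ∑ e ∈ (Icc 1 R).filter (fun e => g ∣ e),
        if Nat.gcd d e = g then fT l z d e else 0 := by
    rw [Finset.sum_filter]
    refine Finset.sum_congr rfl fun d _ => ?_
    split_ifs with hd
    · rw [Finset.sum_filter]
      refine Finset.sum_congr rfl fun e _ => ?_
      by_cases he : g ∣ e
      · rw [if_pos he]
      · rw [if_neg he, if_neg]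
        intro h
        exact he (h ▸ Nat.gcd_dvd_right d e)
    · refine Finset.sum_eq_zero fun e _ => ?_
      rw [if_neg]
      intro h
      exact hd (h ▸ Nat.gcd_dvd_left d e)
  rw [h1, reg_mult g R hg]
  have h2 : ∀ a ∈ Icc 1 (R / g),
      (∑ e ∈ (Icc 1 R).filter (fun e => g ∣ e),
        if Nat.gcd (g * a) e = g then fT l z (g * a) e else 0) =
      ∑ b ∈ Icc 1 (R / g), ∑ e ∈ Icc 1 R,
        if e ∣ a then (if e ∣ b then ((ArithmeticFunction.moebius e : ℤ) : ℂ) * hT l z g a b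
          else 0) else 0 := by
    intro a ha
    rw [reg_mult g R hg]
    refine Finset.sum_congr rfl fun b hb => ?_
    rw [Finset.mem_Icc] at ha hb
    have hpos : 1 ≤ Nat.gcd a b := Nat.gcd_pos_of_pos_left b (by omega)
    have hle : Nat.gcd a b ≤ R := by
      have e1 := Nat.gcd_le_left b (show 0 < a by omega)
      have e2 : R / g ≤ R := Nat.div_le_self _ _
      omega
    have hm := reg_mob (Nat.gcd a b) R hpos hle
    have h3 : (∑ e ∈ Icc 1 R, if e ∣ a then (if e ∣ b then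
        ((ArithmeticFunction.moebius e : ℤ) : ℂ) * hT l z g a b else 0) else 0) =
        (∑ e ∈ Icc 1 R, if e ∣ Nat.gcd a b then ((ArithmeticFunction.moebius e : ℤ) : ℂ) else 0)
          * hT l z g a b := by
      rw [Finset.sum_mul]
      refine Finset.sum_congr rfl fun e _ => ?_
      by_cases ha' : e ∣ a
      · by_cases hb' : e ∣ b
        · rw [if_pos ha', if_pos hb', if_pos (Nat.dvd_gcd ha' hb')]
        · rw [if_pos ha', if_neg hb', if_neg (fun h => hb' (h.trans (Nat.gcd_dvd_right a b))),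
            zero_mul]
      · rw [if_neg ha', if_neg (fun h => ha' (h.trans (Nat.gcd_dvd_left a b))), zero_mul]
    rw [h3, hm, Nat.gcd_mul_left]
    by_cases h : Nat.gcd a b = 1
    · rw [if_pos h, if_pos (by rw [h, mul_one]), one_mul]
      exact fT_eq l z g a b h
    · rw [if_neg h, zero_mul, if_neg]
      intro h'
      apply h
      exact Nat.eq_of_mul_eq_mul_left (show 0 < g by omega) (by rw [h', mul_one])
  rw [Finset.sum_congr rfl h2]
  have h4 : ∀ a ∈ Icc 1 (R / g), (∑ b ∈ Icc 1 (R / g), ∑ e ∈ Icc 1 R,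
        if e ∣ a then (if e ∣ b then ((ArithmeticFunction.moebius e : ℤ) : ℂ) * hT l z g a b
          else 0) else 0) =
      ∑ e ∈ Icc 1 R, ∑ b ∈ Icc 1 (R / g),
        if e ∣ a then (if e ∣ b then ((ArithmeticFunction.moebius e : ℤ) : ℂ) * hT l z g a b
          else 0) else 0 := fun a _ => Finset.sum_comm
  rw [Finset.sum_congr rfl h4, Finset.sum_comm]
  refine Finset.sum_congr rfl fun e he => ?_
  rw [Finset.mem_Icc] at he
  have h5 : (∑ a ∈ Icc 1 (R / g), ∑ b ∈ Icc 1 (R / g),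
        if e ∣ a then (if e ∣ b then ((ArithmeticFunction.moebius e : ℤ) : ℂ) * hT l z g a b
          else 0) else 0) =
      ∑ a ∈ (Icc 1 (R / g)).filter (fun a => e ∣ a), ∑ b ∈ (Icc 1 (R / g)).filter (fun b => e ∣ b),
        ((ArithmeticFunction.moebius e : ℤ) : ℂ) * hT l z g a b := by
    rw [Finset.sum_filter]
    refine Finset.sum_congr rfl fun a _ => ?_
    split_ifs
    · rw [Finset.sum_filter]
    · exact Finset.sum_const_zero
  rw [h5, reg_mult e (R / g) he.1, Nat.div_div_eq_div_mul, Finset.mul_sum]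
  refine Finset.sum_congr rfl fun a _ => ?_
  rw [reg_mult e (R / g) he.1, Nat.div_div_eq_div_mul, Finset.mul_sum]

theorem regroup (l : ℕ → ℝ) (R : ℕ) (z : ℝ) :
    T l R z = ∑ g ∈ Icc 1 R, ∑ e ∈ Icc 1 R,
      (((ArithmeticFunction.moebius e : ℝ) * ((g : ℝ) * (e : ℝ) ^ 2) : ℝ) : ℂ) *
        U (fun a => l (g * e * a)) (fun a => l (g * e * a)) (R / (g * e))
          (z / ((g : ℝ) * (e : ℝ) ^ 2)) := by
  have h1 : T l R z = ∑ g ∈ Icc 1 R, ∑ d ∈ Icc 1 R, ∑ e ∈ Icc 1 R,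
      if Nat.gcd d e = g then fT l z d e else 0 := by
    unfold T
    symm
    rw [Finset.sum_comm]
    refine Finset.sum_congr rfl fun d hd => ?_
    rw [Finset.sum_comm]
    refine Finset.sum_congr rfl fun e he => ?_
    rw [Finset.mem_Icc] at hd he
    rw [Finset.sum_ite_eq, if_pos]
    · rfl
    · rw [Finset.mem_Icc]
      exact ⟨Nat.gcd_pos_of_pos_left e (by omega),
        (Nat.gcd_le_left e (show 0 < d by omega)).trans hd.2⟩
  rw [h1]
  refine Finset.sum_congr rfl fun g hg => ?_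
  rw [Finset.mem_Icc] at hg
  rw [reg_g l R z g hg.1]
  refine Finset.sum_congr rfl fun e he => ?_
  rw [Finset.mem_Icc] at he
  unfold U
  rw [Finset.mul_sum, Finset.mul_sum]
  refine Finset.sum_congr rfl fun a ha => ?_
  rw [Finset.mul_sum, Finset.mul_sum]
  refine Finset.sum_congr rfl fun b hb => ?_
  rw [Finset.mem_Icc] at ha hb
  unfold hT
  have hg0 : (g : ℝ) ≠ 0 := by exact_mod_cast (by omega : g ≠ 0)
  have he0 : (e : ℝ) ≠ 0 := by exact_mod_cast (by omega : e ≠ 0)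
  have ha0 : (a : ℝ) ≠ 0 := by exact_mod_cast (by omega : a ≠ 0)
  have hb0 : (b : ℝ) ≠ 0 := by exact_mod_cast (by omega : b ≠ 0)
  have h2 : z / ((g : ℝ) * ((e * a : ℕ) : ℝ) * ((e * b : ℕ) : ℝ)) =
      z / ((g : ℝ) * (e : ℝ) ^ 2) / ((a : ℝ) * b) := by
    push_cast
    field_simp
  have h3 : g * (e * a) = g * e * a := by ring
  have h4 : g * (e * b) = g * e * b := by ring
  rw [h2, h3, h4]
  push_cast
  ring

end Pool.Agent.H49.BT
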