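import Pool.Agent.H49.BT.Defs

/-!
# [H49 BT RMP] Sum of a ramp over the integers

PROOF. `n0 = ⌊u⌋₊`, `f = fract u = u - n0` (`Int.self_sub_floor`, `Nat.floor` and `Int.floor` agree as `u ≥ 0`, e.g.
`Int.fract_eq_self`/`natCast_floor_eq_intCast_floor`). Induction on `M` from `n0` (`Nat.le_induction`).
`M = n0`: all terms vanish (`m ≤ n0 ≤ u`), the right side is `((-f)^2 - f + (f - f^2))/2 = 0`.
Step: the new term is `M + 1 - u ≥ 0` (`u < n0 + 1 ≤ M + 1`), and with `w = M - u` the right side grows by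
`((w+1)^2 + (w+1) - w^2 - w)/2 = w + 1`.
-/

set_option autoImplicit false

namespace Pool.Agent.H49.BT

open Finset

theorem ramp (u : ℝ) (hu : 0 ≤ u) (M : ℕ) (hM : ⌊u⌋₊ ≤ M) :
    ∑ m ∈ Icc 1 M, rp ((m : ℝ) - u) =
      (((M : ℝ) - u) ^ 2 + ((M : ℝ) - u) + (1 / 6 - B2 u)) / 2 := by
  have hfl : Int.fract u = u - (⌊u⌋₊ : ℝ) := by
    rw [Int.fract, natCast_floor_eq_intCast_floor hu]
  induction M, hM using Nat.le_induction with
  | base =>
    have h0 : ∑ m ∈ Icc 1 ⌊u⌋₊, rp ((m : ℝ) - u) = 0 := by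
      refine Finset.sum_eq_zero fun m hm => ?_
      have h1 : m ≤ ⌊u⌋₊ := (Finset.mem_Icc.1 hm).2
      have h2 : (m : ℝ) ≤ u := (Nat.cast_le.2 h1).trans (Nat.floor_le hu)
      exact max_eq_right (by linarith)
    rw [h0, B2, hfl]
    ring
  | succ M hM ih =>
    rw [Finset.sum_Icc_succ_top (by omega), ih]
    have h1 : u < (⌊u⌋₊ : ℝ) + 1 := Nat.lt_floor_add_one u
    have h2 : ((⌊u⌋₊ : ℕ) : ℝ) ≤ (M : ℝ) := Nat.cast_le.2 hM
    have h3 : rp (((M + 1 : ℕ) : ℝ) - u) = (M : ℝ) + 1 - u := by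
      rw [rp, max_eq_left]
      · push_cast; ring
      · push_cast; linarith
    rw [h3]
    push_cast
    ring

end Pool.Agent.H49.BT
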