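import Pool.Agent.H49.BT.Maj

/-!
# [H49 BT SVI] Selberg's upper bound sieve with the trapezoid

PROOF. `lam = H24.AB.lam R`, `N = ⌈x + H + Δ⌉₊`. For a prime `p` with `⌊x⌋₊ < p ≤ ⌊x+H⌋₊`: `x < p ≤ x + H`, `R ≤ x < p`, so the only
`d ∈ Icc 1 R` dividing `p` is `1`, `∑_{d ∈ Icc 1 R, d ∣ p} lam d = lam_one = 1`, `F p ≥ 1` (`F_one`), `p ∈ Icc 1 N`. So the number of
primes is `≤ ∑_{n ∈ Icc 1 N} F n (∑_{d ∈ Icc 1 R, d ∣ n} lam d)^2` (`F_nonneg`). Expand the square: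
`= ∑_{d,e} lam d lam e ∑_{n ∈ Icc 1 N, lcm d e ∣ n} F n` (`Nat.lcm_dvd_iff`), `maj` with `D = lcm d e ≥ 1`:
`= (H+Δ) ∑ lam lam/lcm - (1/(2Δ)) (W(x-Δ) - W(x) - W(x+H) + W(x+H+Δ))`; `H24.AB.quad`: the first sum is `1/Ss R ≤ 1/log R`
(`H24.AB.log_le_Ss`, `log R > 0`).
-/

set_option autoImplicit false

namespace Pool.Agent.H49.BT

open Finset

private theorem svi_sq (l : ℕ → ℝ) (R n : ℕ) :
    (∑ d ∈ (Icc 1 R).filter (fun d => d ∣ n), l d) ^ 2 =
      ∑ d ∈ Icc 1 R, ∑ e ∈ Icc 1 R, if d.lcm e ∣ n then l d * l e else 0 := by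
  rw [Finset.sum_filter, sq, Finset.sum_mul_sum]
  refine Finset.sum_congr rfl fun d _ => Finset.sum_congr rfl fun e _ => ?_
  by_cases h1 : d ∣ n
  · by_cases h2 : e ∣ n
    · rw [if_pos h1, if_pos h2, if_pos (Nat.lcm_dvd h1 h2)]
    · rw [if_pos h1, if_neg h2, mul_zero, if_neg (fun h => h2 ((Nat.dvd_lcm_right d e).trans h))]
  · rw [if_neg h1, zero_mul, if_neg (fun h => h1 ((Nat.dvd_lcm_left d e).trans h))]

private theorem svi_sum (l : ℕ → ℝ) (R N : ℕ) (f : ℕ → ℝ) :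
    ∑ n ∈ Icc 1 N, f n * (∑ d ∈ (Icc 1 R).filter (fun d => d ∣ n), l d) ^ 2 =
      ∑ d ∈ Icc 1 R, ∑ e ∈ Icc 1 R, l d * l e *
        ∑ n ∈ (Icc 1 N).filter (fun n => d.lcm e ∣ n), f n := by
  have h1 : ∀ n ∈ Icc 1 N, f n * (∑ d ∈ (Icc 1 R).filter (fun d => d ∣ n), l d) ^ 2 =
      ∑ d ∈ Icc 1 R, ∑ e ∈ Icc 1 R, if d.lcm e ∣ n then l d * l e * f n else 0 := by
    intro n _
    rw [svi_sq, Finset.mul_sum]
    refine Finset.sum_congr rfl fun d _ => ?_
    rw [Finset.mul_sum]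
    refine Finset.sum_congr rfl fun e _ => ?_
    split_ifs
    · ring
    · ring
  rw [Finset.sum_congr rfl h1, Finset.sum_comm]
  refine Finset.sum_congr rfl fun d _ => ?_
  rw [Finset.sum_comm]
  refine Finset.sum_congr rfl fun e _ => ?_
  rw [Finset.sum_filter, Finset.mul_sum]
  refine Finset.sum_congr rfl fun n _ => ?_
  split_ifs
  · rfl
  · ring

theorem svi (x H Δ : ℝ) (hΔ : 0 < Δ) (hx : Δ ≤ x) (hH : 0 ≤ H) (R : ℕ) (hR : 2 ≤ R)
    (hRx : (R : ℝ) ≤ x) :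
    (((Finset.Ioc ⌊x⌋₊ ⌊x + H⌋₊).filter Nat.Prime).card : ℝ) ≤
      (H + Δ) / Real.log R + 1 / (2 * Δ) *
        (|W (H24.AB.lam R) R (x - Δ)| + |W (H24.AB.lam R) R x| + |W (H24.AB.lam R) R (x + H)|
          + |W (H24.AB.lam R) R (x + H + Δ)|) := by
  set l := H24.AB.lam R with hl
  have hx0 : 0 < x := lt_of_lt_of_le hΔ hx
  set N : ℕ := ⌈x + H + Δ⌉₊ with hN
  have hNle : x + H + Δ ≤ N := Nat.le_ceil _
  have hl1 : l 1 = 1 := H24.AB.lam_one R (by omega)
  -- the primes are counted by the weighted sum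
  have hA : (((Finset.Ioc ⌊x⌋₊ ⌊x + H⌋₊).filter Nat.Prime).card : ℝ) ≤
      ∑ n ∈ Icc 1 N, F x H Δ n * (∑ d ∈ (Icc 1 R).filter (fun d => d ∣ n), l d) ^ 2 := by
    have hsub : (Finset.Ioc ⌊x⌋₊ ⌊x + H⌋₊).filter Nat.Prime ⊆ Icc 1 N := by
      intro p hp
      rw [Finset.mem_filter, Finset.mem_Ioc] at hp
      obtain ⟨⟨h1, h2⟩, h3⟩ := hp
      rw [Finset.mem_Icc]
      refine ⟨h3.one_lt.le, ?_⟩
      have h4 : (p : ℝ) ≤ x + H := by
        have := Nat.floor_le (show (0 : ℝ) ≤ x + H by linarith)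
        exact le_trans (by exact_mod_cast h2) this
      have h5 : (p : ℝ) ≤ N := by linarith
      exact_mod_cast h5
    calc (((Finset.Ioc ⌊x⌋₊ ⌊x + H⌋₊).filter Nat.Prime).card : ℝ)
        = ∑ p ∈ (Finset.Ioc ⌊x⌋₊ ⌊x + H⌋₊).filter Nat.Prime, (1 : ℝ) := by simp
      _ ≤ ∑ p ∈ (Finset.Ioc ⌊x⌋₊ ⌊x + H⌋₊).filter Nat.Prime,
          F x H Δ p * (∑ d ∈ (Icc 1 R).filter (fun d => d ∣ p), l d) ^ 2 := by
        refine Finset.sum_le_sum fun p hp => ?_
        rw [Finset.mem_filter, Finset.mem_Ioc] at hp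
        obtain ⟨⟨h1, h2⟩, h3⟩ := hp
        have hxp : x < p := (Nat.floor_lt hx0.le).1 h1
        have h4 : (p : ℝ) ≤ x + H := by
          have := Nat.floor_le (show (0 : ℝ) ≤ x + H by linarith)
          exact le_trans (by exact_mod_cast h2) this
        have hf : (Icc 1 R).filter (fun d => d ∣ p) = {1} := by
          ext d
          rw [Finset.mem_filter, Finset.mem_Icc, Finset.mem_singleton]
          constructor
          · rintro ⟨⟨ha, hb⟩, hc⟩
            rcases (Nat.dvd_prime h3).1 hc with h | h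
            · exact h
            · exfalso
              have : (p : ℝ) ≤ R := by rw [← h]; exact_mod_cast hb
              linarith
          · rintro rfl
            exact ⟨⟨le_refl _, by omega⟩, one_dvd _⟩
        rw [hf, Finset.sum_singleton, hl1, one_pow, mul_one]
        exact F_one x H Δ p hΔ hxp.le h4
      _ ≤ _ := by
        refine Finset.sum_le_sum_of_subset_of_nonneg hsub fun n _ _ => ?_
        exact mul_nonneg (F_nonneg x H Δ n hΔ hH) (sq_nonneg _)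
  -- the expansion
  have hB : ∑ n ∈ Icc 1 N, F x H Δ n * (∑ d ∈ (Icc 1 R).filter (fun d => d ∣ n), l d) ^ 2 =
      (H + Δ) * (1 / H24.AB.Ss R) - 1 / (2 * Δ) *
        (W l R (x - Δ) - W l R x - W l R (x + H) + W l R (x + H + Δ)) := by
    rw [svi_sum l R N (fun n => F x H Δ n), ← H24.AB.quad R (by omega)]
    unfold W
    rw [← Finset.sum_sub_distrib, ← Finset.sum_sub_distrib, ← Finset.sum_add_distrib,
      Finset.mul_sum, Finset.mul_sum, ← Finset.sum_sub_distrib]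
    refine Finset.sum_congr rfl fun d hd => ?_
    rw [← Finset.sum_sub_distrib, ← Finset.sum_sub_distrib, ← Finset.sum_add_distrib,
      Finset.mul_sum, Finset.mul_sum, ← Finset.sum_sub_distrib]
    refine Finset.sum_congr rfl fun e he => ?_
    rw [Finset.mem_Icc] at hd he
    have hlcm : 1 ≤ d.lcm e := Nat.lcm_pos (by omega) (by omega)
    rw [maj x H Δ hΔ hx hH (d.lcm e) N hlcm hNle]
    have hlc : ((d.lcm e : ℕ) : ℝ) ≠ 0 := by
      have : 0 < d.lcm e := hlcm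
      positivity
    field_simp
    ring
  have hSs : 0 < H24.AB.Ss R := H24.AB.Ss_pos R (by omega)
  have hlog : 0 < Real.log R := Real.log_pos (by exact_mod_cast (by omega : 1 < R))
  have hC : (H + Δ) * (1 / H24.AB.Ss R) ≤ (H + Δ) / Real.log R := by
    rw [mul_one_div]
    exact div_le_div_of_nonneg_left (by linarith) hlog (H24.AB.log_le_Ss R (by omega))
  have hD : -(1 / (2 * Δ) * (W l R (x - Δ) - W l R x - W l R (x + H) + W l R (x + H + Δ))) ≤
      1 / (2 * Δ) * (|W l R (x - Δ)| + |W l R x| + |W l R (x + H)| + |W l R (x + H + Δ)|) := by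
    rw [← mul_neg]
    refine mul_le_mul_of_nonneg_left ?_ (by positivity)
    have e1 := neg_abs_le (W l R (x - Δ))
    have e2 := le_abs_self (W l R x)
    have e3 := le_abs_self (W l R (x + H))
    have e4 := neg_abs_le (W l R (x + H + Δ))
    linarith
  rw [hB] at hA
  linarith

end Pool.Agent.H49.BT
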